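import Pool.Agent.Lead.SR.Conf3

/-!
The configuration attached to a quadratic system: soundness.
-/

namespace Pool.Agent.Lead.SR

open Pool.Agent.H38.ER (ERH)

variable {C : List (LP × LP)}

theorem slope {a e d m : V3} (h1 : 0 < a.2.2) (h2 : 0 < e.2.2) (h3 : d.2.2 = 0) (h4 : 0 < d.1)
    (h5 : m.2.1 < 0) (k1 : ip a m = 0) (k2 : ip e m = 0) (k3 : ip d m = 0) :
    e.2.1 / e.2.2 - a.2.1 / a.2.2 = d.2.1 / d.1 * (e.1 / e.2.2 - a.1 / a.2.2) := by
  simp only [ip, h3] at *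
  field_simp
  apply mul_left_cancel₀ h5.ne
  linear_combination a.2.2 * d.1 * k2 - e.2.2 * d.1 * k1 - (e.1 * a.2.2 - e.2.2 * a.1) * k3

section
variable {g s r j k : ℕ}
theorem n1 : ¬ Par (q1 C) (q2 C) (4, g, s, r) (5, 0, 0, 0) := by simp [Par, q1, q2]; grind
theorem n2 : ¬ Par (q1 C) (q2 C) (1, 0, 0, 0) (7, g, s, r) := by simp [Par, q1, q2]; grind
theorem n3 : ¬ Par (q1 C) (q2 C) (2, k, 0, 0) (6, 0, 0, 0) := by simp [Par, q1, q2]; grind
theorem n4 : ¬ Par (q1 C) (q2 C) (1, 0, 0, 0) (8, g, s, r) := by simp [Par, q1, q2]; grind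
theorem n5 : Par (q1 C) (q2 C) (4, g, s, r) (8, g, s, r) := by simp [Par, q1, q2]; grind
theorem n6 (ht : T C g s r) : Par (q1 C) (q2 C) (2, (pr C g s r).1, 0, 0) (8, g, s, r) := by
  have := @len_var C g s r ht
  simp [Par, q1, q2]; grind
theorem n7 (ht : T C g s r) : HH C g (if r = 0 then 0 else s) r := by
  have := @len_var C g s r ht
  exact ⟨ht.1, by have := ht.2.1; grind, by have := ht.2.2; grind, by grind⟩
theorem n8 : ¬ Par (q1 C) (q2 C) (4, g, s, r) (6, 0, 0, 0) := by simp [Par, q1, q2]; grind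
theorem n9 : ¬ Par (q1 C) (q2 C) (4, g, 0, r) (7, g, 1, j) := by simp [Par, q1, q2]; grind
end

theorem conf_sound (hC : Good C) (h : Weak 3 (conf C)) : HQ C := by
  rcases eq_or_ne C [] with rfl | hne
  · exact ⟨0, by simp⟩
  have G : 0 < ng C := by have := List.length_pos_iff.2 hne; unfold ng; omega
  obtain ⟨ψ, hψ⟩ := gen_sound conf_wf h
  have zero : ∀ {a b}, a ∈ PL C → b ∈ LL C → Par (q1 C) (q2 C) a b → ip (ψ a) (ψ b) = 0 :=
    fun ha hb => (hψ _ ha _ hb).1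
  have pos : ∀ {a b}, a ∈ PL C → b ∈ LL C → ¬ Par (q1 C) (q2 C) a b →
      ipN (vp C len a) (vn C len b) < ipN (vp C len a) (vp C len b) → 0 < ip (ψ a) (ψ b) :=
    fun ha hb hp h => by simpa [bs, h, h.ne', sg] using (hψ _ ha _ hb).2 hp
  have neg : ∀ {a b}, a ∈ PL C → b ∈ LL C → ¬ Par (q1 C) (q2 C) a b →
      ipN (vp C len a) (vp C len b) < ipN (vp C len a) (vn C len b) → ip (ψ a) (ψ b) < 0 :=
    fun ha hb hp h => by simpa [bs, h.not_gt, h.ne, sg] using (hψ _ ha _ hb).2 hp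
  obtain ⟨g1, -, g2, g3, -⟩ := grp hC G
  have X : (0, 0, 0, 0) ∈ PL C := by simp [mP0]
  have Y : (1, 0, 0, 0) ∈ PL C := by simp [mP1]
  have O : (3, 0, 0, 0) ∈ PL C := mP3.2 ⟨G, by omega, g2⟩
  have L : (5, 0, 0, 0) ∈ LL C := by simp [mL5]
  have V0 : (6, 0, 0, 0) ∈ LL C := by simp [mL6]
  have H0 : (7, 0, 0, 0) ∈ LL C := mL7.2 ⟨G, by omega, by omega, fun _ => rfl⟩
  have XL := zero X L (by simp [Par, q1])
  have YL := zero Y L (by simp [Par, q1])
  have AL : ∀ {k g s r}, k = 3 ∨ k = 4 → (k, g, s, r) ∈ PL C →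
      ip (ψ (k, g, s, r)) (ψ (5, 0, 0, 0)) < 0 := fun hk h => by
    rcases hk with rfl | rfl
    exacts [neg h L (by simp [Par, q1, q2]) (by simp [ipN, vp3, vp5, vn5]),
      neg h L n1 (by simp [ipN, vp4, vp5, vn5])]
  have XV : ∀ {j c}, (6, j, c, 0) ∈ LL C → 0 < ip (ψ (0, 0, 0, 0)) (ψ (6, j, c, 0)) := fun h =>
    pos X h (by simp [Par, q1, q2]) (by simp [ipN, vp0, vp6, vn6])
  have YV : ∀ {j c}, (6, j, c, 0) ∈ LL C → ip (ψ (1, 0, 0, 0)) (ψ (6, j, c, 0)) = 0 := fun h =>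
    zero Y h (by simp [Par, q1])
  have XH : ∀ {g s r}, (7, g, s, r) ∈ LL C → ip (ψ (0, 0, 0, 0)) (ψ (7, g, s, r)) = 0 := fun h =>
    zero X h (by simp [Par, q1])
  have YH : ∀ {g s r}, (7, g, s, r) ∈ LL C → 0 < ip (ψ (1, 0, 0, 0)) (ψ (7, g, s, r)) := fun h =>
    pos Y h n2 (by simp [ipN, vp1, vp7, vn7])
  have OL := AL (.inl rfl) O
  choose q hq using frame (ψ (0, 0, 0, 0)) (ψ (1, 0, 0, 0)) (ψ (3, 0, 0, 0)) (ψ (6, 0, 0, 0))
    (ψ (7, 0, 0, 0)) (ψ (5, 0, 0, 0)) (ip_comm _ _ ▸ YV V0) (ip_comm _ _ ▸ XH H0) (ip_comm _ _ ▸ XL)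
    (ip_comm _ _ ▸ YL) (ip_comm _ _ ▸ (XV V0).ne') (ip_comm _ _ ▸ (YH H0).ne') (ip_comm _ _ ▸ OL.ne)
  have hq' : ∀ p l, ip p l = (q p).1 * ip (ψ (0, 0, 0, 0)) l + (q p).2.1 * ip (ψ (1, 0, 0, 0)) l +
    (q p).2.2 * ip (ψ (3, 0, 0, 0)) l := hq
  have q3 : ∀ {k g s r}, k = 3 ∨ k = 4 → (k, g, s, r) ∈ PL C → 0 < (q (ψ (k, g, s, r))).2.2 :=
    fun hk h => by
      have := AL hk h
      rw [hq', XL, YL] at this
      nlinarith
  let xv : ℕ → ℕ → ℝ := fun j c =>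
    -ip (ψ (3, 0, 0, 0)) (ψ (6, j, c, 0)) / ip (ψ (0, 0, 0, 0)) (ψ (6, j, c, 0))
  let yh : ℕ → ℕ → ℕ → ℝ := fun g s r =>
    -ip (ψ (3, 0, 0, 0)) (ψ (7, g, s, r)) / ip (ψ (1, 0, 0, 0)) (ψ (7, g, s, r))
  have aV : ∀ {p j c}, 0 < (q p).2.2 → (6, j, c, 0) ∈ LL C →
      ∃ z > 0, (q p).1 / (q p).2.2 - xv j c = z * ip p (ψ (6, j, c, 0)) := fun {p j c} h h' => by
    have := XV h'
    refine ⟨_, one_div_pos.2 (mul_pos h this), ?_⟩
    rw [hq' p, YV h']; simp only [xv]; field_simp; ring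
  have aH : ∀ {p g s r}, 0 < (q p).2.2 → (7, g, s, r) ∈ LL C →
      ∃ z > 0, (q p).2.1 / (q p).2.2 - yh g s r = z * ip p (ψ (7, g, s, r)) := fun {p g s r} h h' => by
    have := YH h'
    refine ⟨_, one_div_pos.2 (mul_pos h this), ?_⟩
    rw [hq' p, XH h']; simp only [yh]; field_simp; ring
  have D : ∀ {k}, (2, k, 0, 0) ∈ PL C → (q (ψ (2, k, 0, 0))).2.2 = 0 ∧ 0 < (q (ψ (2, k, 0, 0))).1 :=
    fun h => by
      have a := zero h L (by simp [Par, q1])
      have b := pos h V0 n3 (by simp [ipN, vp2, vp6, vn6])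
      rw [hq', XL, YL, mul_zero, mul_zero, zero_add, zero_add] at a
      have c := (mul_eq_zero.1 a).resolve_right OL.ne
      rw [hq', YV V0, c] at b
      exact ⟨c, by nlinarith [XV V0]⟩
  let w : ℕ → ℝ := fun j => xv j 1 - xv j 0
  let lam : ℕ → ℝ := fun k => (q (ψ (2, k, 0, 0))).2.1 / (q (ψ (2, k, 0, 0))).1
  have EV : ∀ {g s r}, T C g s r → (q (ψ (4, g, s, r))).1 / (q (ψ (4, g, s, r))).2.2 =
      xv (pr C g s r).2 1 := fun ht => by
    have m : (6, _, 1, 0) ∈ LL C := mL6.2 ⟨(pr_le ht).2, by omega, rfl⟩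
    obtain ⟨z, -, e⟩ := aV (q3 (.inr rfl) (mP4.2 ht)) m
    rw [zero (mP4.2 ht) m (by simp [Par, q1])] at e
    linarith
  have EH : ∀ {g s r}, T C g s r → (q (ψ (4, g, s, r))).2.1 / (q (ψ (4, g, s, r))).2.2 =
      if g < nb C ∧ s = 1 then yh g 0 1 else yh g s (r + 1) := fun {g s r} ht => by
    split_ifs with c
    · have m : (7, g, 0, 1) ∈ LL C := mL7.2 ⟨ht.1, by omega, by simp [(ch_var c.1).1], by simp⟩
      obtain ⟨z, -, e⟩ := aH (q3 (.inr rfl) (mP4.2 ht)) m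
      rw [zero (mP4.2 ht) m (by simp [Par, q2, c])] at e
      linarith
    · have m : (7, g, s, r + 1) ∈ LL C := mL7.2 ⟨ht.1, ht.2.1, ht.2.2, by have := ht.2.1; omega⟩
      obtain ⟨z, -, e⟩ := aH (q3 (.inr rfl) (mP4.2 ht)) m
      rw [zero (mP4.2 ht) m (by simp [Par, q2])] at e
      linarith
  have step : ∀ {g s r}, T C g s r → (if g < nb C ∧ s = 1 then yh g 0 1 else yh g s (r + 1)) -
      yh g (if r = 0 then 0 else s) r = lam (pr C g s r).1 * w (pr C g s r).2 := fun {g s r} ht => by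
    have A := mP3.2 ht
    have E := mP4.2 ht
    have M := mL8.2 ht
    have Dk : (2, (pr C g s r).1, 0, 0) ∈ PL C := mP2.2 ⟨(pr_le ht).1, rfl, rfl⟩
    have := slope (m := (_, _, _)) (q3 (.inl rfl) A) (q3 (.inr rfl) E) (D Dk).1 (D Dk).2
      (neg Y M n4 (by simp [ipN, vp1, vp8, vn8]))
      ((hq _ _).symm.trans (zero A M (by simp [Par, q1])))
      ((hq _ _).symm.trans (zero E M n5))
      ((hq _ _).symm.trans (zero Dk M (n6 ht)))
    have m : (6, _, 0, 0) ∈ LL C := mL6.2 ⟨(pr_le ht).2, by omega, rfl⟩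
    obtain ⟨z, -, e⟩ := aV (q3 (.inl rfl) A) m
    rw [zero A m (by simp [Par, q1])] at e
    have m' : (7, g, if r = 0 then 0 else s, r) ∈ LL C :=
      mL7.2 (n7 ht)
    obtain ⟨z', -, e'⟩ := aH (q3 (.inl rfl) A) m'
    rw [zero A m' (by simp [Par, q2])] at e'
    rw [mul_zero, sub_eq_zero] at e e'
    rw [EV ht, EH ht, e, e'] at this
    exact this
  have w0 : 0 < w 0 := by
    have ht : T C 0 1 0 := ⟨G, by omega, g3⟩
    obtain ⟨z, hz, e⟩ := aV (q3 (.inr rfl) (mP4.2 ht)) V0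
    rw [EV ht, g1] at e
    exact e.symm.subst (motive := fun x => 0 < x) <| mul_pos hz (pos (mP4.2 ht) V0 n8
      (by simp [ipN, vp4, vp6, vn6, g1, len]))
  have l0 : 0 < lam 0 := by
    have h : (2, 0, 0, 0) ∈ PL C := by simp [mP2]
    have b := pos h H0 (by simp [Par, q1, q2]) (by simp [ipN, vp2, vp7, vn7, len])
    rw [hq', XH H0, (D h).1] at b
    exact div_pos (by nlinarith [YH H0]) (D h).2
  have lw : ∀ k ≤ nb C, lam k * w 0 = lam 0 * w k := fun k hk => by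
    rcases k with _ | k
    · rfl
    have hg : k < ng C := by unfold ng; omega
    have a := step (g := k) (s := 0) (r := 0) ⟨hg, by omega, by simp [(ch_var hk).1]⟩
    have b := step (g := k) (s := 1) (r := 0) ⟨hg, by omega, by simp [(ch_var hk).2]⟩
    simp [pr, (ch_var hk).1, (ch_var hk).2, show k < nb C from hk] at a b
    linarith
  refine ⟨w, fun c hc => ?_⟩
  obtain ⟨i, hi, rfl⟩ := List.getElem_of_mem hc
  have hg : nb C + i < ng C := by unfold ng; omega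
  have e0 : ch C (nb C + i) 0 = C[i].1 ++ [(0, 0)] := by simp [ch, hi]
  have e1 : ch C (nb C + i) 1 = (0, 0) :: C[i].2 := by simp [ch, hi]
  generalize hg' : nb C + i = g at *
  have sm : ∀ s < 2, ∀ r ≤ (ch C g s).length, w 0 * (yh g (if r = 0 then 0 else s) r - yh g 0 0) =
      lam 0 * (lev C w g s r - (g * La C : ℕ)) := fun s hs r hr => by
    induction r with
    | zero => simp [lev_zero]
    | succ r ih =>
      have ht : T C g s r := ⟨hg, hs, hr⟩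
      have := step ht
      rw [if_neg (by omega)] at this
      rw [if_neg (by omega), lev_succ _ hr]
      linear_combination ih (by omega) + w 0 * this + w (pr C g s r).2 * lw _ (pr_le ht).1
  obtain ⟨-, -, n0, n1, -, f, -⟩ := grp hC hg
  have a := sm 0 (by omega) _ le_rfl
  have b := sm 1 (by omega) _ le_rfl
  have ht : T C g 0 ((ch C g 0).length - 1) := ⟨hg, by omega, by omega⟩
  have m : (7, g, 1, (ch C g 1).length) ∈ LL C := mL7.2 ⟨hg, by omega, le_rfl, by omega⟩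
  obtain ⟨z, hz, e⟩ := aH (q3 (.inr rfl) (mP4.2 ht)) m
  have k := (hψ _ (mP4.2 ht) _ m).2 n9
  rw [EH ht, if_neg (by omega), Nat.sub_add_cancel n0] at e
  simp only [bs, ipN, vp4, vp7, vn7, Nat.sub_add_cancel n0, f, sg] at k
  simp only [ite_self, if_neg n1.ne', lev, List.take_length] at a b
  simp only [e0, e1, val_append, val_cons, val_nil] at a b
  simp only [e0, e1] at e
  have := mul_pos w0 (e ▸ mul_pos hz (by simpa [e0, e1] using k))
  nlinarith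

theorem Strong.weak {d p} (h : Strong d p) : Weak (d + 2) p := by
  obtain ⟨x, a, y, b, h⟩ := h
  refine ⟨fun i => Fin.cons 1 (Fin.cons (y i) (x i)), fun j => Fin.cons (-b j) (Fin.cons 1 (-a j)),
    fun i hi j hj => (h i hi j hj).trans_eq ?_⟩
  simp only [dotProduct, Fin.sum_univ_succ, Fin.cons_zero, Fin.cons_succ, Pi.neg_apply, neg_mul,
    Finset.sum_neg_distrib, mul_comm (x i _)]
  ring

theorem sr1_erh : ERH (fun p => Weak 3 p → Strong 1 p) (Strong 1) :=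
  pq_erh.reduce conf pt_conf fun _ hC => ⟨fun h => conf_complete hC (conf_sound hC h),
    conf_complete hC, fun h => conf_sound hC h.weak⟩

end Pool.Agent.Lead.SR
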