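import Pool.Agent.Lead.SR.Lift
import Pool.Agent.H38.NP.Graphs

/-!
Intersection graphs of balls.
-/

namespace Pool.Agent.Lead.SR

open Pool.Agent.H38.ER (ERH)
open Pool.Agent.H38.NP Filter Topology Metric

def BG (D : ℕ) (p : ℕ × LP) : Prop :=
  ∃ (c : Fin p.1 → EuclideanSpace ℝ (Fin D)) (r : Fin p.1 → ℝ), (∀ v, 0 < r v) ∧ ∀ u v, u ≠ v →
    ((graphOf p.1 p.2).Adj u v ↔ (closedBall (c u) (r u) ∩ closedBall (c v) (r v)).Nonempty)

theorem meet_iff {D} (c c' : EuclideanSpace ℝ (Fin D)) {r r' : ℝ} (h : 0 < r) (h' : 0 < r') :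
    (closedBall c r ∩ closedBall c' r').Nonempty ↔ ∑ i, (c i - c' i) ^ 2 ≤ (r + r') ^ 2 := by
  rw [← Set.not_disjoint_iff_nonempty_inter, disjoint_closedBall_closedBall_iff h.le h'.le, not_lt,
    EuclideanSpace.dist_eq, Real.sqrt_le_left (by positivity)]
  simp [Real.dist_eq]

theorem bg_iff {D N} {ad : ℕ → ℕ → Bool} (sy : ∀ u v, ad u v = ad v u) : BG D (N, edgesOf N ad) ↔
    ∃ (c : ℕ → Fin D → ℝ) (r : ℕ → ℝ), (∀ v < N, 0 < r v) ∧ ∀ u < N, ∀ v < N, u ≠ v →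
      (ad u v = true ↔ ∑ i, (c u i - c v i) ^ 2 ≤ (r u + r v) ^ 2) := by
  have e : ∀ u v : Fin N, u ≠ v → ((graphOf N (edgesOf N ad)).Adj u v ↔ ad u v = true) :=
    fun u v h => by simp [graphOf_edgesOf_adj, sy v u, Fin.val_ne_of_ne h]
  constructor
  · rintro ⟨c, r, h, k⟩
    refine ⟨fun u => if h : u < N then c ⟨u, h⟩ else 0, fun u => if h : u < N then r ⟨u, h⟩ else 0,
      fun v hv => by simp [hv, h], fun u hu v hv n => ?_⟩
    have n' : (⟨u, hu⟩ : Fin N) ≠ ⟨v, hv⟩ := fun e => n (congrArg Fin.val e)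
    simp only [dif_pos hu, dif_pos hv]
    exact (e _ _ n').symm.trans ((k _ _ n').trans (meet_iff _ _ (h _) (h _)))
  · rintro ⟨c, r, h, k⟩
    exact ⟨fun u => WithLp.toLp 2 (c u), fun u => r u, fun v => h _ v.2, fun u v n =>
      (e _ _ n).trans ((k _ u.2 _ v.2 (Fin.val_ne_of_ne n)).trans
        (meet_iff (WithLp.toLp 2 (c u)) (WithLp.toLp 2 (c v)) (h _ u.2) (h _ v.2)).symm)⟩

def bad (p : ℕ × ℕ × LP) (u v : ℕ) : Bool :=
  if u < 2 * p.1 then (if v < 2 * p.1 then decide (u % 2 = v % 2) else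
    decide (ent p.2.2 (u / 2) (v / 2 - p.1) = decide (u % 2 = v % 2))) else
  if v < 2 * p.1 then decide (ent p.2.2 (v / 2) (u / 2 - p.1) = decide (v % 2 = u % 2)) else
    decide (u % 2 = v % 2)

theorem bad_sy (p u v) : bad p u v = bad p v u := by
  unfold bad; split_ifs <;> simp [eq_comm]

theorem sg_par (u v : ℕ) : sg (decide (u % 2 = v % 2)) =
    sg (decide (u % 2 = 0)) * sg (decide (v % 2 = 0)) := by
  rcases Nat.mod_two_eq_zero_or_one u with h | h <;>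
    rcases Nat.mod_two_eq_zero_or_one v with h' | h' <;> simp [h, h', sg]

theorem sg_eq (a b : Bool) : sg (decide (a = b)) = sg a * sg b := by
  cases a <;> cases b <;> simp [sg]

theorem sg_or (a) : sg a = 1 ∨ sg a = -1 := by cases a <;> simp [sg]

theorem ball_sound {D p} (h : BG D (2 * p.1 + 2 * p.2.1, edgesOf (2 * p.1 + 2 * p.2.1) (bad p))) :
    Weak (D + 1) p := by
  obtain ⟨m, n, E⟩ := p
  obtain ⟨c, r, -, h⟩ := (bg_iff (bad_sy _)).1 h
  refine ⟨fun i => Fin.cons (r (2 * i) - r (2 * i + 1)) (c (2 * i) - c (2 * i + 1)),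
    fun j => Fin.cons (r (2 * m + 2 * j) - r (2 * m + 2 * j + 1))
      (c (2 * m + 2 * j) - c (2 * m + 2 * j + 1)), fun i hi j hj => ?_⟩
  simp only at hi hj h
  have k : ∀ s < 2, ∀ t < 2, ent E i j = decide (s = t) ↔
      ∑ l, (c (2 * i + s) l - c (2 * m + 2 * j + t) l) ^ 2 ≤
        (r (2 * i + s) + r (2 * m + 2 * j + t)) ^ 2 := fun s hs t ht => by
    rw [← h _ (by omega) _ (by omega) (by omega), bad, if_pos (by simp only; omega),
      if_neg (by simp only; omega), show (2 * i + s) / 2 = i by omega,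
      show (2 * m + 2 * j + t) / 2 - m = j by omega, show (2 * i + s) % 2 = s by omega,
      show (2 * m + 2 * j + t) % 2 = t by omega, decide_eq_true_eq]
  have a := k 0 (by omega) 0 (by omega)
  have b := k 0 (by omega) 1 (by omega)
  have a' := k 1 (by omega) 1 (by omega)
  have b' := k 1 (by omega) 0 (by omega)
  have e : 2 * ∑ l, (c (2 * i) l - c (2 * i + 1) l) * (c (2 * m + 2 * j) l - c (2 * m + 2 * j + 1) l) =
      ∑ l, (c (2 * i) l - c (2 * m + 2 * j + 1) l) ^ 2 + ∑ l, (c (2 * i + 1) l - c (2 * m + 2 * j) l) ^ 2 -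
      ∑ l, (c (2 * i) l - c (2 * m + 2 * j) l) ^ 2 -
        ∑ l, (c (2 * i + 1) l - c (2 * m + 2 * j + 1) l) ^ 2 := by
    simp only [Finset.mul_sum, ← Finset.sum_add_distrib, ← Finset.sum_sub_distrib]
    exact Finset.sum_congr rfl fun _ _ => by ring
  simp only [dotProduct, Fin.sum_univ_succ, Fin.cons_zero, Fin.cons_succ, Pi.sub_apply]
  cases z : ent E i j <;> simp [z, sg] at a b a' b' ⊢ <;> linarith

theorem ball_complete {d p} (h : Strong (d + 1) p) :
    BG (d + 2) (2 * p.1 + 2 * p.2.1, edgesOf (2 * p.1 + 2 * p.2.1) (bad p)) := by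
  obtain ⟨m, n, E⟩ := p
  obtain ⟨x, a, y, b, h⟩ := h
  let σ : ℕ → ℝ := fun u => sg (decide (u % 2 = 0))
  let H : ℕ → Fin d → ℝ := fun u l =>
    σ u * if u < 2 * m then x (u / 2) l.succ else -a (u / 2 - m) l.succ / 2
  let P : ℝ → ℕ → ℝ := fun e u =>
    if u < 2 * m then 3 * σ u + 5 * e * x (u / 2) 0 else -e ^ 2 * σ u * b (u / 2 - m) / 6
  let Q : ℝ → ℕ → ℝ := fun e u =>
    if u < 2 * m then e ^ 2 * σ u * y (u / 2) / 8 else 4 * σ u - 5 * e * a (u / 2 - m) 0 / 24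
  let R : ℝ → ℕ → ℝ := fun e u => if u < 2 * m then 2 + 3 * e * σ u * x (u / 2) 0 +
      e ^ 2 * (16 * x (u / 2) 0 ^ 2 + ∑ l, H u l ^ 2) / 10 else 3 - e * σ u * a (u / 2 - m) 0 / 6 +
      e ^ 2 * (a (u / 2 - m) 0 ^ 2 / 64 + ∑ l, H u l ^ 2) / 10
  let F : ℝ → ℕ → ℕ → ℝ := fun e u v => (R e u + R e v) ^ 2 - (P e u - P e v) ^ 2 -
    (Q e u - Q e v) ^ 2 - e ^ 2 * ∑ l, (H u l - H v l) ^ 2
  have mix : ∀ u < 2 * m, ∀ v < 2 * m + 2 * n, ¬ v < 2 * m →
      ∀ᶠ e in 𝓝[>] (0 : ℝ), 0 < sg (bad (m, n, E) u v) * F e u v := fun u hu v hv hv' => by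
    have h := h (u / 2) (by simp only; omega) (v / 2 - m) (by simp only; omega)
    have e1 : ∑ l, (H u l - H v l) ^ 2 = ∑ l, H u l ^ 2 + ∑ l, H v l ^ 2 +
        σ u * σ v * ∑ l : Fin d, a (v / 2 - m) l.succ * x (u / 2) l.succ := by
      simp only [Finset.mul_sum, ← Finset.sum_add_distrib, H, if_pos hu, if_neg hv']
      exact Finset.sum_congr rfl fun _ _ => by ring
    simp only [F, R, P, Q, bad, if_pos hu, if_neg hv', sg_eq, sg_par u v, e1]
    simp only [dotProduct, Fin.sum_univ_succ] at h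
    change ∀ᶠ e in _, 0 < _ * (σ u * σ v) * _
    have s1 : σ u = 1 ∨ σ u = -1 := sg_or _
    have s2 : σ v = 1 ∨ σ v = -1 := sg_or _
    generalize σ u = s, σ v = t, ∑ l, H u l ^ 2 = A, ∑ l, H v l ^ 2 = B, x (u / 2) 0 = θ,
      a (v / 2 - m) 0 = φ, ∑ l : Fin d, a (v / 2 - m) l.succ * x (u / 2) l.succ = W, y (u / 2) = y,
      b (v / 2 - m) = b, sg (ent E (u / 2) (v / 2 - m)) = z at *
    filter_upwards [self_mem_nhdsWithin, ev_pos (f := fun e => z * (s * t) * (s * t * (y - b) +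
      (16 * θ ^ 2 + A + φ ^ 2 / 64 + B) - (5 * θ + e * t * b / 6) ^ 2 - (5 * φ / 24 + e * s * y / 8) ^ 2 -
      (A + B + s * t * W) + (3 * s * θ - t * φ / 6 + e * (16 * θ ^ 2 + A + φ ^ 2 / 64 + B) / 10) ^ 2))
      (by fun_prop) (h.trans_eq (by rcases s1 with rfl | rfl <;> rcases s2 with rfl | rfl <;> ring))]
      with e he k
    refine (mul_pos (pow_pos (show 0 < e from he) 2) k).trans_eq ?_
    rcases s1 with rfl | rfl <;> rcases s2 with rfl | rfl <;> ring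
  have k : ∀ u < 2 * m + 2 * n, ∀ v < 2 * m + 2 * n,
      ∀ᶠ e in 𝓝[>] (0 : ℝ), 0 < sg (bad (m, n, E) u v) * F e u v := fun u hu v hv => by
    have s1 : σ u = 1 ∨ σ u = -1 := sg_or _
    have s2 : σ v = 1 ∨ σ v = -1 := sg_or _
    by_cases h1 : u < 2 * m <;> by_cases h2 : v < 2 * m
    rotate_left
    · exact mix u h1 v hv h2
    · refine (mix v h2 u hu h1).mono fun e he => he.trans_eq ?_
      rw [bad_sy]
      simp only [F, sub_sq_comm (H u _), sub_sq_comm (P e u), sub_sq_comm (Q e u), add_comm (R e u)]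
    all_goals
      simp only [F, R, P, Q, bad, h1, h2, if_true, if_false, sg_par u v]
      refine ev_pos (by fun_prop) ?_
      change 0 < σ u * σ v * _
      rcases s1 with s1 | s1 <;> rcases s2 with s2 | s2 <;> rw [s1, s2] <;> norm_num
  have k' : ∀ u, ∀ᶠ e in 𝓝[>] (0 : ℝ), 0 < R e u := fun u => by
    simp only [R]; split_ifs <;> exact ev_pos (by fun_prop) (by simp)
  have fin := Set.finite_lt_nat (2 * m + 2 * n)
  obtain ⟨e, e1, e2⟩ := (((eventually_all_finite fin).2 fun u hu => (eventually_all_finite fin).2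
    (k u hu)).and ((eventually_all_finite fin).2 fun u _ => k' u)).exists
  refine (bg_iff (D := d + 2) (N := 2 * m + 2 * n) (bad_sy (m, n, E))).2 ⟨fun u => Fin.cons (P e u) (Fin.cons (Q e u) fun l => e * H u l),
    R e, e2, fun u hu v hv _ => ?_⟩
  have := e1 u hu v hv
  simp only [F] at this
  simp only [Fin.sum_univ_succ, Fin.cons_zero, Fin.cons_succ, ← mul_sub, mul_pow, ← Finset.mul_sum]
  cases z : bad (m, n, E) u v <;> simp only [z, sg, cond_true, cond_false] at this <;> simp <;> linarith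

theorem ball_erh (d : ℕ) : ERH (fun _ => True) (BG (d + 2)) :=
  (sr_erh d).reduce (fun p => (2 * p.1 + 2 * p.2.1, edgesOf (2 * p.1 + 2 * p.2.1) (bad p)))
    (PT.mk (by fun_prop) (PT.edgesOf (by fun_prop) (by unfold bad; fun_prop))) fun _ h =>
      ⟨trivial, ball_complete, fun k => h (ball_sound k)⟩

end Pool.Agent.Lead.SR
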