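import Pool.Agent.Lead.SR.Cons

/-!
The configuration attached to a quadratic system: definitions.
-/

namespace Pool.Agent.Lead.SR

open Pool.Agent.H38.NP

abbrev Ob := ℕ × ℕ × ℕ × ℕ

variable (C : List (LP × LP))

def nb : ℕ := (C.map fun c => ((c.1 ++ c.2).map fun p => p.1 + p.2).sum).sum
def ng : ℕ := nb C + C.length
def ch (g s : ℕ) : LP :=
  if g < nb C then (if s = 0 then [(0, g + 1)] else [(g + 1, 0)]) else
    if s = 0 then (C.getD (g - nb C) ([], [])).1 ++ [(0, 0)] else (0, 0) :: (C.getD (g - nb C) ([], [])).2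
def pr (g s r : ℕ) : ℕ × ℕ := (ch C g s).getD r (0, 0)
def La : ℕ := ((List.range (ng C)).map fun g => val len (ch C g 0) + val len (ch C g 1)).sum + 1
def xi (j : ℕ) : ℕ := (j + 1) * (ng C * La C + 2 * nb C + 2)

section
variable {R : Type} [CommSemiring R] (w : ℕ → R)
def lev (g s r : ℕ) : R := (g * La C : ℕ) + val w ((ch C g s).take r)

def vp (a : Ob) : R × R × R :=
  if a.1 = 0 then (1, 0, 0) else if a.1 = 1 then (0, 1, 0) else if a.1 = 2 then (1, w a.2.1, 0) else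
  if a.1 = 3 then (xi C (pr C a.2.1 a.2.2.1 a.2.2.2).2, lev C w a.2.1 a.2.2.1 a.2.2.2, 1) else
  if a.1 = 4 then (xi C (pr C a.2.1 a.2.2.1 a.2.2.2).2 + w (pr C a.2.1 a.2.2.1 a.2.2.2).2,
    lev C w a.2.1 a.2.2.1 (a.2.2.2 + 1), 1) else
  if a.1 = 5 then (0, 0, 0) else if a.1 = 6 then (1, 0, 0) else if a.1 = 7 then (0, 1, 0) else
  if a.1 = 8 then (w (pr C a.2.1 a.2.2.1 a.2.2.2).1, 0, lev C w a.2.1 a.2.2.1 a.2.2.2) else (1, 1, 1)

def vn (a : Ob) : R × R × R :=
  if a.1 = 5 then (0, 0, 1) else if a.1 = 6 then (0, 0, xi C a.2.1 + a.2.2.1 * w a.2.1) else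
  if a.1 = 7 then (0, 0, lev C w a.2.1 a.2.2.1 a.2.2.2) else
  if a.1 = 8 then (0, 1, w (pr C a.2.1 a.2.2.1 a.2.2.2).1 * xi C (pr C a.2.1 a.2.2.1 a.2.2.2).2) else
  (0, 0, 0)
end

def ipN (u v : ℕ × ℕ × ℕ) : ℕ := u.1 * v.1 + u.2.1 * v.2.1 + u.2.2 * v.2.2

def bs (a b : Ob) : Bool :=
  if ipN (vp C len a) (vp C len b) = ipN (vp C len a) (vn C len b) then decide (a.2.2.1 = 0) else
    decide (ipN (vp C len a) (vn C len b) < ipN (vp C len a) (vp C len b))

def q1 (a : Ob) : Ob :=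
  if a.1 < 3 then (5, 0, 0, 0) else if a.1 = 3 then (6, (pr C a.2.1 a.2.2.1 a.2.2.2).2, 0, 0) else
  if a.1 = 4 then (6, (pr C a.2.1 a.2.2.1 a.2.2.2).2, 1, 0) else if a.1 = 6 then (1, 0, 0, 0) else
  if a.1 = 7 then (0, 0, 0, 0) else if a.1 = 8 then (3, a.2) else (9, 0, 0, 0)

def q2 (a : Ob) : Ob :=
  if a.1 = 2 then (if a.2.1 = 0 then (9, 0, 0, 0) else (8, a.2.1 - 1, 1, 0)) else
  if a.1 = 3 then (7, a.2.1, if a.2.2.2 = 0 then 0 else a.2.2.1, a.2.2.2) else
  if a.1 = 4 then (if a.2.1 < nb C ∧ a.2.2.1 = 1 then (7, a.2.1, 0, 1) else (8, a.2)) else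
  if a.1 = 7 then (if a.2.2.2 = 0 then (9, 0, 0, 0) else (4, a.2.1, a.2.2.1, a.2.2.2 - 1)) else
  if a.1 = 8 then (if a.2.1 < nb C ∧ a.2.2.1 = 1 then (4, a.2) else
    (2, (pr C a.2.1 a.2.2.1 a.2.2.2).1, 0, 0)) else (9, 0, 0, 0)

def rk (a : Ob) : ℕ :=
  if a.1 < 2 then 1 else if a.1 = 2 then (if a.2.1 = 0 then 1 else 9) else if a.1 = 5 then 0 else
  if a.1 = 6 then 2 else (if a.1 = 3 then 3 else if a.1 = 4 then 5 else if a.1 = 7 then 2 else 4) +
    4 * a.2.2.2 + if a.2.1 < nb C then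
      (if a.2.2.1 = 1 then (if a.1 = 4 then 2 else if a.1 = 8 then 4 else 0) else 0) else 8

def tri : List (ℕ × ℕ × ℕ) := (List.range (ng C)).flatMap fun g => (List.range 2).flatMap fun s =>
  (List.range (ch C g s).length).map fun r => (g, s, r)

def PL : List Ob := (0, 0, 0, 0) :: (1, 0, 0, 0) :: ((List.range (nb C + 1)).map (fun k => (2, k, 0, 0)) ++
  (tri C).flatMap fun t => [(3, t), (4, t)])

def LL : List Ob := (5, 0, 0, 0) :: ((List.range (nb C + 1)).flatMap (fun j => [(6, j, 0, 0), (6, j, 1, 0)]) ++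
  (List.range (ng C)).map (fun g => (7, g, 0, 0)) ++
  ((tri C).filter fun t => decide (nb C ≤ t.1) || decide (t.2.1 = 0)).map (fun t => (7, t.1, t.2.1, t.2.2 + 1)) ++
  (tri C).map fun t => (8, t))

def T (g s r : ℕ) : Prop := g < ng C ∧ s < 2 ∧ r < (ch C g s).length

theorem mem_PL {a} : a ∈ PL C ↔ a = (0, 0, 0, 0) ∨ a = (1, 0, 0, 0) ∨ (∃ k ≤ nb C, a = (2, k, 0, 0)) ∨
    ∃ g s r, T C g s r ∧ (a = (3, g, s, r) ∨ a = (4, g, s, r)) := by
  simp only [PL, tri, T, List.mem_cons, List.mem_append, List.mem_map, List.mem_flatMap,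
    List.mem_range, List.not_mem_nil, or_false, Nat.lt_succ_iff]
  grind

theorem mem_LL {a} : a ∈ LL C ↔ a = (5, 0, 0, 0) ∨ (∃ j ≤ nb C, a = (6, j, 0, 0) ∨ a = (6, j, 1, 0)) ∨
    (∃ g < ng C, a = (7, g, 0, 0)) ∨ ∃ g s r, T C g s r ∧
      ((nb C ≤ g ∨ s = 0) ∧ a = (7, g, s, r + 1) ∨ a = (8, g, s, r)) := by
  simp only [LL, tri, T, List.mem_cons, List.mem_append, List.mem_map, List.mem_flatMap,
    List.mem_range, List.not_mem_nil, or_false, Nat.lt_succ_iff, List.mem_filter, Bool.or_eq_true,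
    decide_eq_true_eq]
  grind

def conf : ℕ × ℕ × LP := inst (PL C) (LL C) (q1 C) (q2 C) (bs C) (9, 0, 0, 0)

section
variable {α : Type} [Enc α] {C : α → List (LP × LP)} {g s r : α → ℕ} {a b : α → Ob}
@[fun_prop] theorem pt_len (hg : PT g) : PT fun x => len (g x) := by unfold len; fun_prop
@[fun_prop] theorem pt_val {L : α → LP} (h : PT L) : PT fun x => val len (L x) := by
  unfold val; fun_prop
@[fun_prop] theorem pt_nb (hC : PT C) : PT fun x => nb (C x) := by unfold nb; fun_prop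
@[fun_prop] theorem pt_ng (hC : PT C) : PT fun x => ng (C x) := by unfold ng; fun_prop
@[fun_prop] theorem pt_ch (hC : PT C) (hg : PT g) (hs : PT s) : PT fun x => ch (C x) (g x) (s x) := by
  unfold ch; fun_prop
@[fun_prop] theorem pt_pr (hC : PT C) (hg : PT g) (hs : PT s) (hr : PT r) :
    PT fun x => pr (C x) (g x) (s x) (r x) := by unfold pr; fun_prop
@[fun_prop] theorem pt_La (hC : PT C) : PT fun x => La (C x) := by unfold La; fun_prop
@[fun_prop] theorem pt_xi (hC : PT C) (hg : PT g) : PT fun x => xi (C x) (g x) := by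
  unfold xi; fun_prop
@[fun_prop] theorem pt_lev (hC : PT C) (hg : PT g) (hs : PT s) (hr : PT r) :
    PT fun x => lev (C x) len (g x) (s x) (r x) := by
  simp only [lev, Nat.cast_id]; fun_prop
@[fun_prop] theorem pt_vp (hC : PT C) (ha : PT a) : PT fun x => vp (C x) len (a x) := by
  simp only [vp, Nat.cast_id]; fun_prop
@[fun_prop] theorem pt_vn (hC : PT C) (ha : PT a) : PT fun x => vn (C x) len (a x) := by
  simp only [vn, Nat.cast_id]; fun_prop
@[fun_prop] theorem pt_bs (hC : PT C) (ha : PT a) (hb : PT b) : PT fun x => bs (C x) (a x) (b x) := by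
  unfold bs ipN; fun_prop
@[fun_prop] theorem pt_q1 (hC : PT C) (ha : PT a) : PT fun x => q1 (C x) (a x) := by
  unfold q1; fun_prop
@[fun_prop] theorem pt_q2 (hC : PT C) (ha : PT a) : PT fun x => q2 (C x) (a x) := by
  unfold q2; fun_prop
@[fun_prop] theorem pt_tri (hC : PT C) : PT fun x => tri (C x) := by unfold tri; fun_prop
@[fun_prop] theorem pt_PL (hC : PT C) : PT fun x => PL (C x) := by unfold PL; fun_prop
@[fun_prop] theorem pt_LL (hC : PT C) : PT fun x => LL (C x) := by unfold LL; fun_prop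
end

theorem pt_conf : PT conf := by
  unfold conf inst
  exact PT.mk (by fun_prop) (PT.mk (by fun_prop) (pt_pairsOf (by fun_prop) (by fun_prop)
    (by unfold en cp; fun_prop)))

end Pool.Agent.Lead.SR
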