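import Pool.Agent.Lead.SR.Conf

/-!
The configuration attached to a quadratic system: levels and genericity.
-/

namespace Pool.Agent.Lead.SR

variable {C : List (LP × LP)} {g s r : ℕ}

section
variable {R : Type} [CommSemiring R] (w : ℕ → R)
theorem vp0 : vp C w (0, g, s, r) = (1, 0, 0) := rfl
theorem vp1 : vp C w (1, g, s, r) = (0, 1, 0) := rfl
theorem vp2 : vp C w (2, g, s, r) = (1, w g, 0) := rfl
theorem vp3 : vp C w (3, g, s, r) = ((xi C (pr C g s r).2 : R), lev C w g s r, 1) := rfl
theorem vp4 : vp C w (4, g, s, r) =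
    ((xi C (pr C g s r).2 : R) + w (pr C g s r).2, lev C w g s (r + 1), 1) := rfl
theorem vp5 : vp C w (5, g, s, r) = (0, 0, 0) := rfl
theorem vp6 : vp C w (6, g, s, r) = (1, 0, 0) := rfl
theorem vp7 : vp C w (7, g, s, r) = (0, 1, 0) := rfl
theorem vp8 : vp C w (8, g, s, r) = (w (pr C g s r).1, 0, lev C w g s r) := rfl
theorem vp9 : vp C w (9, g, s, r) = (1, 1, 1) := rfl
theorem vn0 : vn C w (0, g, s, r) = (0, 0, 0) := rfl
theorem vn1 : vn C w (1, g, s, r) = (0, 0, 0) := rfl
theorem vn2 : vn C w (2, g, s, r) = (0, 0, 0) := rfl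
theorem vn3 : vn C w (3, g, s, r) = (0, 0, 0) := rfl
theorem vn4 : vn C w (4, g, s, r) = (0, 0, 0) := rfl
theorem vn5 : vn C w (5, g, s, r) = (0, 0, 1) := rfl
theorem vn6 : vn C w (6, g, s, r) = (0, 0, (xi C g : R) + s * w g) := rfl
theorem vn7 : vn C w (7, g, s, r) = (0, 0, lev C w g s r) := rfl
theorem vn8 : vn C w (8, g, s, r) = (0, 1, w (pr C g s r).1 * xi C (pr C g s r).2) := rfl
theorem vn9 : vn C w (9, g, s, r) = (0, 0, 0) := rfl

theorem lev_zero : lev C w g s 0 = (g * La C : ℕ) := by simp [lev]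
theorem lev_succ (h : r < (ch C g s).length) :
    lev C w g s (r + 1) = lev C w g s r + w (pr C g s r).1 * w (pr C g s r).2 := by
  rw [lev, lev, List.take_add_one, List.getElem?_eq_getElem h, pr, List.getD_eq_getElem _ _ h]
  simp only [Option.toList_some, val_append, val_cons, val_nil, add_zero, add_assoc]
end

def HH (C : List (LP × LP)) (g s r : ℕ) : Prop :=
  g < ng C ∧ s < 2 ∧ r ≤ (ch C g s).length ∧ (r = 0 ∨ g < nb C → s = 0)

theorem mem_LL' {a} : a ∈ LL C ↔ a = (5, 0, 0, 0) ∨ (∃ j ≤ nb C, ∃ b < 2, a = (6, j, b, 0)) ∨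
    (∃ g s r, HH C g s r ∧ a = (7, g, s, r)) ∨ ∃ g s r, T C g s r ∧ a = (8, g, s, r) := by
  rw [mem_LL]
  constructor
  · rintro (h | ⟨j, hj, h | h⟩ | ⟨g, hg, h⟩ | ⟨g, s, r, h, ⟨h1, h2⟩ | h1⟩)
    exacts [.inl h, .inr (.inl ⟨j, hj, 0, by omega, h⟩), .inr (.inl ⟨j, hj, 1, by omega, h⟩),
      .inr (.inr (.inl ⟨g, 0, 0, ⟨hg, by omega, by omega, fun _ => rfl⟩, h⟩)),
      .inr (.inr (.inl ⟨g, s, r + 1, ⟨h.1, h.2.1, h.2.2, by omega⟩, h2⟩)),
      .inr (.inr (.inr ⟨g, s, r, h, h1⟩))]
  · rintro (h | ⟨j, hj, b, hb, h⟩ | ⟨g, s, r, ⟨h1, h2, h3, h4⟩, h⟩ | ⟨g, s, r, h, h1⟩)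
    · exact .inl h
    · exact .inr (.inl ⟨j, hj, by interval_cases b <;> simp [h]⟩)
    · rcases r with _ | r
      · exact .inr (.inr (.inl ⟨g, h1, by rw [h, h4 (.inl rfl)]⟩))
      · exact .inr (.inr (.inr ⟨g, s, r, ⟨h1, h2, h3⟩, .inl ⟨by omega, h⟩⟩))
    · exact .inr (.inr (.inr ⟨g, s, r, h, .inr h1⟩))

theorem len_pos (j) : 0 < len j := by unfold len; split_ifs <;> omega
theorem len_le (j) : len j ≤ 2 * j + 1 := by unfold len; split_ifs <;> omega
theorem len_inj {j k} (h : len j = len k) : j = k := by unfold len at h; split_ifs at h <;> omega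

theorem ch_var (h : g < nb C) : ch C g 0 = [(0, g + 1)] ∧ ch C g 1 = [(g + 1, 0)] := by
  simp [ch, h]

theorem ch_ineq (h : nb C ≤ g) (h' : g < ng C) :
    ∃ c ∈ C, ch C g 0 = c.1 ++ [(0, 0)] ∧ ch C g 1 = (0, 0) :: c.2 := by
  have : g - nb C < C.length := by unfold ng at h'; omega
  exact ⟨C[g - nb C], List.getElem_mem _, by simp [ch, h.not_gt, this]⟩

theorem pr_mem (h : r < (ch C g s).length) : pr C g s r ∈ ch C g s := by
  rw [pr, List.getD_eq_getElem _ _ h]; exact List.getElem_mem _

theorem pr_le (h : T C g s r) : (pr C g s r).1 ≤ nb C ∧ (pr C g s r).2 ≤ nb C := by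
  obtain ⟨h1, h2, h3⟩ := h
  have m := pr_mem h3
  by_cases h : g < nb C
  · obtain ⟨e0, e1⟩ := ch_var h
    interval_cases s
    · rw [e0, List.mem_singleton] at m; rw [m]; simp only; omega
    · rw [e1, List.mem_singleton] at m; rw [m]; simp only; omega
  · obtain ⟨c, hc, e0, e1⟩ := ch_ineq (not_lt.1 h) h1
    have k : ∀ p ∈ c.1 ++ c.2, p.1 + p.2 ≤ nb C := fun p hp =>
      (List.single_le_sum (by simp) _ (List.mem_map_of_mem (f := fun p => p.1 + p.2) hp)).trans
        (List.single_le_sum (by simp) _ (List.mem_map_of_mem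
          (f := fun c : LP × LP => ((c.1 ++ c.2).map fun p => p.1 + p.2).sum) hc))
    interval_cases s
    · rw [e0, List.mem_append, List.mem_singleton] at m
      rcases m with m | m
      · have := k _ (List.mem_append_left _ m); omega
      · simp [m]
    · rw [e1, List.mem_cons] at m
      rcases m with m | m
      · simp [m]
      · have := k _ (List.mem_append_right _ m); omega

theorem lev_bd (h : g < ng C) (hs : s < 2) :
    g * La C ≤ lev C len g s r ∧ lev C len g s r < g * La C + La C ∧ g * La C + La C ≤ ng C * La C := by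
  have a : val len ((ch C g s).take r) ≤ val len (ch C g s) := by
    conv_rhs => rw [← List.take_append_drop r (ch C g s), val_append]
    omega
  have b : val len (ch C g 0) + val len (ch C g 1) < La C := Nat.lt_succ_of_le
    (List.single_le_sum (by simp) _ (List.mem_map_of_mem
      (f := fun g => val len (ch C g 0) + val len (ch C g 1)) (List.mem_range.2 h)))
  simp only [lev, Nat.cast_id]
  refine ⟨by omega, by interval_cases s <;> omega, by nlinarith⟩

theorem lev_lt {r'} (h : r < r') (h' : r' ≤ (ch C g s).length) :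
    lev C len g s r < lev C len g s r' := by
  induction r', h using Nat.le_induction with
  | base => rw [lev_succ _ h']; nlinarith [len_pos (pr C g s r).1, len_pos (pr C g s r).2]
  | succ k hk ih =>
    rw [lev_succ _ h']
    exact (ih (by omega)).trans_le (Nat.le_add_right _ _)

theorem lev_inj0 {r'} (h : r ≤ (ch C g s).length) (h' : r' ≤ (ch C g s).length)
    (e : lev C len g s r = lev C len g s r') : r = r' := by
  rcases lt_trichotomy r r' with k | k | k
  exacts [absurd e (lev_lt k h').ne, k, absurd e (lev_lt k h).ne']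

theorem val_even {L : LP} (h : ∀ p ∈ L, 1 ≤ p.1 ∧ 1 ≤ p.2) : 2 ∣ val len L := by
  induction L with
  | nil => simp
  | cons p L ih =>
    rw [val_cons]
    refine dvd_add (Dvd.dvd.mul_right ?_ _) (ih fun q hq => h q (List.mem_cons_of_mem _ hq))
    have := h p List.mem_cons_self
    rw [len, if_neg (by omega)]; simp

theorem grp (hC : Good C) (h : g < ng C) :
    (pr C g 1 0).2 = 0 ∧ (pr C g 0 0).2 ≠ 0 ∧ 0 < (ch C g 0).length ∧ 0 < (ch C g 1).length ∧
    (pr C g 0 ((ch C g 0).length - 1)).2 ≠ (pr C g 1 ((ch C g 1).length - 1)).2 ∧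
    lev C len g 0 (ch C g 0).length = lev C len g 1 (ch C g 1).length ∧
    ∀ r ≤ (ch C g 0).length, ∀ r' ≤ (ch C g 1).length, lev C len g 0 r = lev C len g 1 r' →
      r = 0 ∧ r' = 0 ∨ r = (ch C g 0).length ∧ r' = (ch C g 1).length := by
  by_cases hg : g < nb C
  · obtain ⟨e0, e1⟩ := ch_var hg
    simp only [pr, lev, e0, e1]
    refine ⟨by simp, by simp, by simp, by simp, by simp, by simp [mul_comm], fun r hr r' hr' => ?_⟩
    have := len_pos (g + 1)
    simp only [List.length_singleton] at hr hr'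
    interval_cases r <;> interval_cases r' <;> simp [len]
  · obtain ⟨c, hc, e0, e1⟩ := ch_ineq (not_lt.1 hg) h
    obtain ⟨n1, n2, b1, b2, e⟩ := hC.1 c hc
    have l1 := List.length_pos_iff.2 n1
    have l2 := List.length_pos_iff.2 n2
    have f : lev C len g 0 (ch C g 0).length = lev C len g 1 (ch C g 1).length := by
      simp only [lev, List.take_length, e0, e1, val_append, val_cons, val_nil, e]; ring
    refine ⟨by simp [pr, e1], ?_, by simp [e0], by simp [e1], ?_, f, fun r hr r' hr' k => ?_⟩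
    · have := (b1 _ (List.getElem_mem l1)).2
      simp [pr, e0, l1]; omega
    · have := (b2 _ (List.getElem_mem (show c.2.length - 1 < _ by omega))).2
      obtain ⟨k, hk⟩ : ∃ k, c.2.length = k + 1 := ⟨c.2.length - 1, by omega⟩
      simp only [hk, Nat.add_sub_cancel] at this
      simp [pr, e0, e1, hk]; omega
    · rcases r' with _ | r'
      · exact .inl ⟨lev_inj0 hr (by omega) (by rw [k, lev_zero, lev_zero]), rfl⟩
      · have : r = (ch C g 0).length := by
          by_contra hn
          have o1 := val_even (L := c.1.take r) fun p hp => b1 p (List.mem_of_mem_take hp)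
          have o2 := val_even (L := c.2.take r') fun p hp => b2 p (List.mem_of_mem_take hp)
          simp only [e0, List.length_append, List.length_singleton] at hr hn
          simp only [lev, e0, e1, List.take_succ_cons, val_cons,
            List.take_append_of_le_length (show r ≤ c.1.length by omega), len, if_true] at k
          change _ + val len _ = _ + (_ + val len _) at k
          omega
        exact .inr ⟨this, lev_inj0 hr' le_rfl (by rw [← k, this, f])⟩

theorem lev_inj (hC : Good C) {g' s' r'} (h : g < ng C) (hs : s < 2) (hr : r ≤ (ch C g s).length)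
    (h' : g' < ng C) (hs' : s' < 2) (hr' : r' ≤ (ch C g' s').length)
    (e : lev C len g s r = lev C len g' s' r') : g = g' ∧ (s = s' ∧ r = r' ∨ s ≠ s' ∧
      (r = 0 ∧ r' = 0 ∨ r = (ch C g s).length ∧ r' = (ch C g s').length)) := by
  have b := lev_bd (r := r) h hs
  have b' := lev_bd (r := r') h' hs'
  obtain rfl : g = g' := by
    rcases lt_trichotomy g g' with k | k | k
    · nlinarith
    · exact k
    · nlinarith
  have k := (grp hC h).2.2.2.2.2.2
  refine ⟨rfl, ?_⟩
  interval_cases s <;> interval_cases s'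
  exacts [.inl ⟨rfl, lev_inj0 hr hr' e⟩, .inr ⟨by omega, k _ hr _ hr' e⟩,
    .inr ⟨by omega, by have := k _ hr' _ hr e.symm; omega⟩, .inl ⟨rfl, lev_inj0 hr hr' e⟩]

theorem xi_lt {j j'} (h : j < j') : xi C j + (ng C * La C + 2 * nb C + 2) ≤ xi C j' := by
  have := Nat.mul_le_mul_right (ng C * La C + 2 * nb C + 2) (show j + 1 + 1 ≤ j' + 1 by omega)
  unfold xi; linarith

theorem xi_sep {j j' a x y k} (hx : a + x ≤ ng C * La C + 2 * nb C + 1)
    (hy : y ≤ ng C * La C + 2 * nb C + 1) (hk : 0 < k)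
    (e : (xi C j + a) * k + x = y + k * xi C j') : j = j' := by
  obtain ⟨k, rfl⟩ := Nat.exists_eq_succ_of_ne_zero hk.ne'
  rcases lt_trichotomy j j' with h | h | h
  · nlinarith [xi_lt (C := C) h, Nat.mul_le_mul_left k (xi_lt (C := C) h),
      Nat.mul_le_mul_left k hx]
  · exact h
  · nlinarith [xi_lt (C := C) h, Nat.mul_le_mul_left k (xi_lt (C := C) h)]

theorem strip (hC : Good C) (h : g < ng C) {s'} (hs : s < 2) (hs' : s' < 2) (n : s ≠ s') :
    (pr C g s 0).2 ≠ (pr C g s' 0).2 ∧ ∀ r r', r + 1 = (ch C g s).length →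
      r' + 1 = (ch C g s').length → (pr C g s r).2 ≠ (pr C g s' r').2 := by
  have := grp hC h
  refine ⟨?_, fun r r' h h' => ?_⟩
  · interval_cases s <;> interval_cases s' <;> omega
  · obtain rfl : r = (ch C g s).length - 1 := by omega
    obtain rfl : r' = (ch C g s').length - 1 := by omega
    interval_cases s <;> interval_cases s' <;> omega

def Des (C : List (LP × LP)) (a b : Ob) : Prop := ∃ g, nb C ≤ g ∧ g < ng C ∧
  (a = (4, g, 0, (ch C g 0).length - 1) ∧ b = (7, g, 1, (ch C g 1).length) ∨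
    a = (4, g, 1, (ch C g 1).length - 1) ∧ b = (7, g, 0, (ch C g 0).length))

theorem len_var (h : T C g s r) (hg : g < nb C) : r = 0 ∧ (ch C g s).length = 1 ∧
    (s = 1 → pr C g s r = (g + 1, 0)) ∧ (s = 0 → pr C g s r = (0, g + 1)) := by
  obtain ⟨-, h2, h3⟩ := h
  obtain ⟨e0, e1⟩ := ch_var hg
  interval_cases s <;> simp_all [pr]

theorem generic (hC : Good C) {a b} (ha : a ∈ PL C) (hb : b ∈ LL C) (hp : ¬ Par (q1 C) (q2 C) a b)
    (e : ipN (vp C len a) (vp C len b) = ipN (vp C len a) (vn C len b)) : Des C a b := by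
  rcases (mem_PL C).1 ha with rfl | rfl | ⟨k, hk, rfl⟩ | ⟨g, s, r, ht, rfl | rfl⟩ <;>
  rcases mem_LL'.1 hb with rfl | ⟨j, hj, c, hc, rfl⟩ | ⟨g', s', r', ht', rfl⟩ | ⟨g', s', r', ht', rfl⟩ <;>
  simp only [ipN, vp0, vp1, vp2, vp3, vp4, vp5, vp6, vp7, vp8, vn5, vn6, vn7, vn8, mul_zero, zero_mul,
    mul_one, one_mul, add_zero, zero_add, Nat.cast_id, one_ne_zero, zero_ne_one] at e <;>
  simp [Par, q1, q2] at hp
  · exact absurd e (len_pos _).ne'
  · exact absurd e (len_pos _).ne'
  · have := len_inj e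
    have := @len_var C g' s' r' ht'
    grind
  · have := xi_sep (C := C) (j := j) (j' := (pr C g s r).2) (a := c * len j) (x := 0) (y := 0) (k := 1)
      (by have := len_le j; interval_cases c <;> omega) (by omega) one_pos (by omega)
    have := len_pos j
    interval_cases c <;> grind
  · have := lev_inj hC ht.1 ht.2.1 ht.2.2.le ht'.1 ht'.2.1 ht'.2.2.1 e
    have := ht'.2.2.2
    have := ht.2.2
    grind
  · have b := lev_bd (r := r) ht.1 ht.2.1
    have b' := lev_bd (r := r') ht'.1 ht'.2.1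
    have k := xi_sep (C := C) (j := (pr C g s r).2) (j' := (pr C g' s' r').2) (a := 0)
      (x := lev C len g' s' r') (y := lev C len g s r) (by omega) (by omega)
      (len_pos (pr C g' s' r').1) (by rw [add_zero]; exact e)
    have := lev_inj hC ht.1 ht.2.1 ht.2.2.le ht'.1 ht'.2.1 ht'.2.2.le
      (by rw [k, mul_comm] at e; omega)
    obtain ⟨rfl, this⟩ := this
    have := strip hC ht.1 ht.2.1 ht'.2.1
    have := ht.2
    have := ht'.2
    grind
  · have := len_le j
    have := len_le (pr C g s r).2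
    have := (pr_le ht).2
    have := xi_sep (C := C) (j := (pr C g s r).2) (j' := j) (a := len (pr C g s r).2) (x := 0)
      (y := c * len j) (k := 1) (by omega) (by interval_cases c <;> omega) one_pos (by omega)
    have := len_pos j
    interval_cases c <;> grind
  · obtain ⟨rfl, ⟨rfl, rfl⟩ | ⟨n, ⟨h, -⟩ | ⟨h, rfl⟩⟩⟩ :=
      lev_inj hC ht.1 ht.2.1 ht.2.2 ht'.1 ht'.2.1 ht'.2.2.1 e
    · simp at hp
    · omega
    obtain rfl : r = (ch C g s).length - 1 := by omega
    obtain ⟨a1, a2, -, a3⟩ := ht'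
    have a4 := ht.2.1
    by_cases hg : g < nb C
    · obtain rfl := a3 (.inr hg)
      obtain rfl : s = 1 := by omega
      simp [hg, (ch_var hg).1] at hp
    · refine ⟨g, by omega, ht.1, ?_⟩
      interval_cases s <;> interval_cases s' <;> simp at n ⊢
  · have b := lev_bd (r := r + 1) ht.1 ht.2.1
    have b' := lev_bd (r := r') ht'.1 ht'.2.1
    have := len_le (pr C g s r).2
    have := (pr_le ht).2
    have k := xi_sep (C := C) (j := (pr C g s r).2) (j' := (pr C g' s' r').2)
      (x := lev C len g' s' r') (y := lev C len g s (r + 1)) (by omega) (by omega)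
      (len_pos (pr C g' s' r').1) e
    have := lev_inj hC ht.1 ht.2.1 ht.2.2 ht'.1 ht'.2.1 ht'.2.2
      (by rw [lev_succ _ ht'.2.2, ← k]; rw [← k] at e; linarith)
    obtain ⟨rfl, this⟩ := this
    have := strip hC ht.1 ht.2.1 ht'.2.1
    have := ht.2
    have := ht'.2
    grind


end Pool.Agent.Lead.SR
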