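import Pool.Agent.Lead.SR.Conf2

/-!
The configuration attached to a quadratic system: completeness.
-/

namespace Pool.Agent.Lead.SR

open Filter Topology

variable {C : List (LP × LP)} {g s r : ℕ}

theorem mP0 : (0, g, s, r) ∈ PL C ↔ g = 0 ∧ s = 0 ∧ r = 0 := by simp [mem_PL]
theorem mP1 : (1, g, s, r) ∈ PL C ↔ g = 0 ∧ s = 0 ∧ r = 0 := by simp [mem_PL]
theorem mP2 : (2, g, s, r) ∈ PL C ↔ g ≤ nb C ∧ s = 0 ∧ r = 0 := by simp [mem_PL]
theorem mP3 : (3, g, s, r) ∈ PL C ↔ T C g s r := by simp [mem_PL]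
theorem mP4 : (4, g, s, r) ∈ PL C ↔ T C g s r := by simp [mem_PL]
theorem mP {k} (h : 4 < k) : (k, g, s, r) ∉ PL C := by simp only [mem_PL]; grind
theorem mL5 : (5, g, s, r) ∈ LL C ↔ g = 0 ∧ s = 0 ∧ r = 0 := by simp [mem_LL']
theorem mL6 : (6, g, s, r) ∈ LL C ↔ g ≤ nb C ∧ s < 2 ∧ r = 0 := by simp [mem_LL']
theorem mL7 : (7, g, s, r) ∈ LL C ↔ HH C g s r := by simp [mem_LL']
theorem mL8 : (8, g, s, r) ∈ LL C ↔ T C g s r := by simp [mem_LL']
theorem mL {k} (h : k < 5 ∨ 8 < k) : (k, g, s, r) ∉ LL C := by simp only [mem_LL']; grind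

theorem conf_wf : WF (PL C) (LL C) (q1 C) (q2 C) (rk C) := by
  constructor
  · intro a ha
    rcases (mem_PL C).1 ha with rfl | rfl | ⟨k, hk, rfl⟩ | ⟨g, s, r, ht, rfl | rfl⟩
    · simp [q1, q2, rk, mP, mL]
    · simp [q1, q2, rk, mP, mL]
    · by_cases h : k = 0 <;> simp [q1, q2, rk, mP, mL, h]
      simp [show k - 1 < nb C by omega]
    · have := @len_var C g s r ht
      simp [q1, q2, rk, mP, mL, mL7, HH]; grind
    · have := @len_var C g s r ht
      by_cases h : g < nb C ∧ s = 1 <;> simp [q1, q2, rk, mP, mL, h] <;> grind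
  · intro a ha
    rcases mem_LL'.1 ha with rfl | ⟨j, hj, c, hc, rfl⟩ | ⟨g, s, r, ht, rfl⟩ | ⟨g, s, r, ht, rfl⟩
    · simp [q1, q2, rk, mP, mL]
    · simp [q1, q2, rk, mP, mL]
    · have := ht.2.2.2
      by_cases h : r = 0 <;> simp [q1, q2, rk, mP, mL, h] <;> grind
    · have := @len_var C g s r ht
      have := ht.2.1
      by_cases h : g < nb C ∧ s = 1 <;> simp [q1, q2, rk, mL, h] <;> grind

noncomputable def ph (C : List (LP × LP)) (w : ℕ → ℝ) (a : Ob) : V3 := vp C w a - vn C w a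

theorem par_zero (w : ℕ → ℝ) {a b} (ha : a ∈ PL C) (hb : b ∈ LL C) (hp : Par (q1 C) (q2 C) a b) :
    ip (ph C w a) (ph C w b) = 0 := by
  rcases (mem_PL C).1 ha with rfl | rfl | ⟨k, hk, rfl⟩ | ⟨g, s, r, ht, rfl | rfl⟩ <;>
  rcases mem_LL'.1 hb with rfl | ⟨j, hj, c, hc, rfl⟩ | ⟨g', s', r', ht', rfl⟩ | ⟨g', s', r', ht', rfl⟩ <;>
  simp only [ph, ip, vp0, vp1, vp2, vp3, vp4, vp5, vp6, vp7, vp8, vn0, vn1, vn2, vn3, vn4, vn5, vn6,
    vn7, vn8, Prod.mk_sub_mk, mul_zero, zero_mul, mul_one, one_mul, add_zero, zero_add, sub_zero,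
    zero_sub] <;>
  simp [Par, q1, q2] at hp
  · grind
  · grind
  · grind
  · grind
  · grind
  · have := @len_var C g' s' r' ht'
    grind
  · obtain ⟨rfl, rfl⟩ := hp; simp
  · rcases hp with ⟨rfl, rfl, rfl⟩ | h
    · split_ifs with h <;> simp [h, lev_zero]
    · grind
  · rcases hp with ⟨rfl, rfl, rfl⟩ | h
    · ring
    · grind
  · grind
  · rcases hp with ⟨rfl, rfl⟩ | h
    · simp
    · grind
  · rcases hp with h | h <;> split_ifs at h with c <;> simp only [Prod.mk.injEq] at h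
    · obtain ⟨-, rfl, rfl, rfl⟩ := h
      obtain ⟨c, rfl⟩ := c
      obtain rfl := (len_var ht c).1
      simp [lev, (ch_var c).1, (ch_var c).2, mul_comm]
    · omega
    · omega
    · obtain ⟨-, rfl, rfl, rfl⟩ := h
      rw [Nat.sub_add_cancel (by omega)]; simp
  · obtain ⟨rfl, rfl, rfl⟩ : g = g' ∧ s = s' ∧ r = r' := by grind
    rw [lev_succ _ ht.2.2]; ring

theorem lev_cast : lev C (fun j => (len j : ℝ)) g s r = (lev C len g s r : ℕ) := by
  simp [lev, val_cast]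

theorem ph_base {a b} (ha : a ∈ PL C) : ip (ph C (fun j => len j) a) (ph C (fun j => len j) b) =
    (ipN (vp C len a) (vp C len b) : ℝ) - ipN (vp C len a) (vn C len b) := by
  have p : ∀ a, vp C (fun j => (len j : ℝ)) a =
      (((vp C len a).1 : ℝ), ((vp C len a).2.1 : ℝ), ((vp C len a).2.2 : ℝ)) := fun a => by
    unfold vp; split_ifs <;> simp [lev_cast]
  have n : ∀ a, vn C (fun j => (len j : ℝ)) a =
      (((vn C len a).1 : ℝ), ((vn C len a).2.1 : ℝ), ((vn C len a).2.2 : ℝ)) := fun a => by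
    unfold vn; split_ifs <;> simp [lev_cast]
  have z : vn C (fun j => (len j : ℝ)) a = 0 := by
    rcases (mem_PL C).1 ha with rfl | rfl | ⟨k, hk, rfl⟩ | ⟨g, s, r, ht, rfl | rfl⟩ <;> rfl
  simp only [ph, z, sub_zero]
  simp only [p, n, ip, ipN, Prod.mk_sub_mk]
  push_cast; ring

theorem ph_cont (x : ℕ → ℝ) (a) : Continuous fun t : ℝ => ph C (fun j => len j + t * x j) a := by
  have v : ∀ L, Continuous fun t : ℝ => val (fun j => len j + t * x j) L := fun L => by
    induction L with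
    | nil => simpa using continuous_const
    | cons p L ih => simp only [val_cons]; fun_prop
  have l : ∀ g s r, Continuous fun t : ℝ => lev C (fun j => len j + t * x j) g s r := fun g s r =>
    continuous_const.add (v _)
  refine Continuous.sub ?_ ?_
  · unfold vp; split_ifs <;> fun_prop
  · unfold vn; split_ifs <;> fun_prop

theorem des_val (hC : Good C) (w : ℕ → ℝ) (h : nb C ≤ g) (h' : g < ng C) : ∃ c ∈ C,
    ip (ph C w (4, g, 0, (ch C g 0).length - 1)) (ph C w (7, g, 1, (ch C g 1).length)) =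
      val w c.1 - val w c.2 ∧
    ip (ph C w (4, g, 1, (ch C g 1).length - 1)) (ph C w (7, g, 0, (ch C g 0).length)) =
      val w c.2 - val w c.1 := by
  obtain ⟨c, hc, e0, e1⟩ := ch_ineq h h'
  obtain ⟨-, -, a, b, -⟩ := grp hC h'
  refine ⟨c, hc, ?_⟩
  simp only [ph, ip, vp4, vn4, vp7, vn7, Prod.mk_sub_mk, Nat.sub_add_cancel a, Nat.sub_add_cancel b,
    lev, List.take_length]
  simp only [e0, e1, val_append, val_cons, val_nil]
  constructor <;> ring

theorem conf_complete (hC : Good C) (h : HQ C) : Strong 1 (conf C) := by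
  obtain ⟨x, hx⟩ := hC.2 h
  let φ : ℝ → Ob → V3 := fun t => ph C fun j => len j + t * x j
  have φ0 : φ 0 = ph C fun j => len j := by simp [φ]
  have c := ph_cont (C := C) x
  have k : ∀ a ∈ PL C, ∀ b ∈ LL C, ∀ᶠ t in 𝓝[>] (0 : ℝ),
      ¬ Par (q1 C) (q2 C) a b → 0 < sg (bs C a b) * ip (φ t a) (φ t b) := by
    intro a ha b hb
    by_cases hp : Par (q1 C) (q2 C) a b
    · simp [hp]
    simp only [hp, not_false_iff, true_imp_iff, bs]
    split_ifs with e
    · filter_upwards [self_mem_nhdsWithin] with t ht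
      obtain ⟨g, h1, h2, k⟩ := generic hC ha hb hp e
      obtain ⟨c, hc, k1, k2⟩ := des_val hC (fun j => len j + t * x j) h1 h2
      have := hx t ht c hc
      rcases k with ⟨rfl, rfl⟩ | ⟨rfl, rfl⟩ <;> simp [φ, k1, k2, sg, this]
    · refine ev_pos (by have := c a; have := c b; unfold ip; fun_prop) ?_
      rw [φ0, ph_base ha]
      rcases lt_or_gt_of_ne e with e | e <;> simp [e, e.not_gt, sg]
  have kp : ∀ a ∈ PL C, ∀ᶠ t in 𝓝[>] (0 : ℝ), 0 < ip (φ t a) (1, 1, 1) := fun a ha => by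
    refine ev_pos (by have := c a; unfold ip; fun_prop) ?_
    rw [φ0]
    rcases (mem_PL C).1 ha with rfl | rfl | ⟨k, hk, rfl⟩ | ⟨g, s, r, ht, rfl | rfl⟩ <;>
    simp only [ph, ip, vp0, vp1, vp2, vp3, vp4, vn0, vn1, vn2, vn3, vn4, Prod.mk_sub_mk, lev_cast] <;>
    norm_num <;> positivity
  have kl : ∀ a ∈ LL C, ∀ᶠ t in 𝓝[>] (0 : ℝ), 0 < ip (φ t a) (0, 1, -1) := fun a ha => by
    refine ev_pos (by have := c a; unfold ip; fun_prop) ?_
    rw [φ0]
    rcases mem_LL'.1 ha with rfl | ⟨j, hj, c, hc, rfl⟩ | ⟨g, s, r, ht, rfl⟩ | ⟨g, s, r, ht, rfl⟩ <;>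
    simp only [ph, ip, vp5, vp6, vp7, vp8, vn5, vn6, vn7, vn8, Prod.mk_sub_mk, lev_cast] <;> norm_num
    · have : 0 < xi C j := by unfold xi; positivity
      positivity
    · positivity
    · have := lev_bd (r := r) ht.1 ht.2.1
      have b : lev C len g s r + 1 < len (pr C g s r).1 * xi C (pr C g s r).2 := by
        refine lt_of_lt_of_le ?_ (Nat.le_mul_of_pos_left _ (len_pos _))
        refine lt_of_lt_of_le ?_ (Nat.le_mul_of_pos_left _ (Nat.succ_pos _))
        omega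
      have : ((lev C len g s r + 1 : ℕ) : ℝ) < (len (pr C g s r).1 * xi C (pr C g s r).2 : ℕ) :=
        Nat.cast_lt.2 b
      push_cast at this
      linarith
  have fP := (PL C).finite_toSet
  have fL := (LL C).finite_toSet
  obtain ⟨t, ⟨⟨t1, t2⟩, t3⟩, t4⟩ := (((((eventually_all_finite fP).2 fun a ha =>
    (eventually_all_finite fL).2 (k a ha)).and ((eventually_all_finite fP).2 kp)).and
      ((eventually_all_finite fL).2 kl)).and (ev_pos (f := fun t => (len 0 : ℝ) + t * x 0)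
        (by fun_prop) (by simp [len]))).exists
  refine gen_complete conf_wf (ψ := φ t) (fun a ha b hb => ⟨par_zero _ ha hb, t1 a ha b hb⟩)
    (fun a ha h => ?_) t2 t3
  rcases ha with ha | ha
  · rcases (mem_PL C).1 ha with rfl | rfl | ⟨k, hk, rfl⟩ | ⟨g, s, r, ht, rfl | rfl⟩ <;>
    simp only [q1, q2] <;> norm_num <;> (try split_ifs) <;>
    simp [φ, NP, ph, vp5, vp6, vp7, vp8, vp9, vn5, vn6, vn7, vn8, vn9]
  · rcases mem_LL'.1 ha with rfl | ⟨j, hj, c, hc, rfl⟩ | ⟨g, s, r, ht, rfl⟩ | ⟨g, s, r, ht, rfl⟩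
    · simp [q1, q2, mP, mL] at h
    all_goals
      simp only [q1, q2]
      norm_num
      try split_ifs with c
      all_goals simp [φ, NP, ph, vp0, vp1, vp2, vp3, vp4, vp9, vn0, vn1, vn2, vn3, vn4, vn9]
    rw [(len_var ht c.1).2.2.1 c.2]
    exact .inr (.inl t4.ne')

end Pool.Agent.Lead.SR
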