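import Pool.Agent.Lead.SR.PQ

/-!
From a constructible configuration to a full sign matrix.
-/

namespace Pool.Agent.Lead.SR

open Pool.Agent.H38.NP Filter Topology

def pairsOf (m n : ℕ) (f : ℕ → ℕ → Bool) : LP :=
  (List.range m).flatMap fun u => ((List.range n).filter fun v => f u v).map fun v => (u, v)

theorem mem_pairsOf {m n f u v} : (u, v) ∈ pairsOf m n f ↔ u < m ∧ v < n ∧ f u v = true := by
  simp [pairsOf]

def ent (E : LP) (i j : ℕ) : Bool := decide ((i, j) ∈ E)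

@[fun_prop] theorem pt_ent {α : Type} [Enc α] {E : α → LP} {i j : α → ℕ} (hE : PT E) (hi : PT i)
    (hj : PT j) : PT fun a => ent (E a) (i a) (j a) := by unfold ent; fun_prop

theorem dec_pairsOf {m n f u v} (hu : u < m) (hv : v < n) :
    ent (pairsOf m n f) u v = f u v := by
  simp [ent, mem_pairsOf, hu, hv]

theorem pt_pairsOf {α : Type} [Enc α] {m n : α → ℕ} {f : α → ℕ → ℕ → Bool} (hm : PT m) (hn : PT n)
    (h : PT fun p : α × ℕ × ℕ => f p.1 p.2.1 p.2.2) : PT fun a => pairsOf (m a) (n a) (f a) := by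
  unfold pairsOf
  refine PT.flatMap (PT.map (by fun_prop) (PT.filter (f := fun (p : α × ℕ) v => f p.1 p.2 v) ?_
    (by fun_prop))) (by fun_prop)
  exact h.comp (g := fun p : (α × ℕ) × ℕ => (p.1.1, p.1.2, p.2)) (by fun_prop)

def Weak (k : ℕ) (p : ℕ × ℕ × LP) : Prop := ∃ u v : ℕ → Fin k → ℝ,
  ∀ i < p.1, ∀ j < p.2.1, 0 < sg (ent p.2.2 i j) * (u i ⬝ᵥ v j)

def Strong (d : ℕ) (p : ℕ × ℕ × LP) : Prop := ∃ (x a : ℕ → Fin d → ℝ) (y b : ℕ → ℝ),
  ∀ i < p.1, ∀ j < p.2.1, 0 < sg (ent p.2.2 i j) * (y i - a j ⬝ᵥ x i - b j)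

variable {O : Type} [DecidableEq O] (P L : List O) (p1 p2 : O → O) (base : O → O → Bool) (o : O)

def en (a : O) (s : Bool × Bool) (b : O) (t : Bool × Bool) : Bool :=
  if p1 a = b then s.1 else if p2 a = b then s.2 else if p1 b = a then t.1 else
    if p2 b = a then t.2 else base a b

def cp (i : ℕ) : Bool × Bool := (decide (i % 2 = 0), decide (i / 2 % 2 = 0))

def inst : ℕ × ℕ × LP := (4 * P.length, 4 * L.length, pairsOf (4 * P.length) (4 * L.length)
  fun i j => en p1 p2 base (P.getD (i / 4) o) (cp i) (L.getD (j / 4) o) (cp j))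

def Par (a b : O) : Prop := p1 a = b ∨ p2 a = b ∨ p1 b = a ∨ p2 b = a

structure WF (rk : O → ℕ) : Prop where
  hP : ∀ a ∈ P, a ∉ L ∧ p1 a ∉ P ∧ p2 a ∉ P ∧ (p1 a ∈ L → rk (p1 a) < rk a) ∧
    (p2 a ∈ L → rk (p2 a) < rk a ∧ p1 a ≠ p2 a)
  hL : ∀ a ∈ L, p1 a ∉ L ∧ p2 a ∉ L ∧ (p1 a ∈ P → rk (p1 a) < rk a) ∧
    (p2 a ∈ P → rk (p2 a) < rk a ∧ p1 a ≠ p2 a)

def Exact (ψ : O → V3) : Prop := ∀ a ∈ P, ∀ b ∈ L,
  (Par p1 p2 a b → ip (ψ a) (ψ b) = 0) ∧ (¬ Par p1 p2 a b → 0 < sg (base a b) * ip (ψ a) (ψ b))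

variable {P L p1 p2 base o} {rk : O → ℕ}

omit [DecidableEq O] in
theorem ex_idx {P : List O} {a} (h : a ∈ P) (s) :
    ∃ i < 4 * P.length, P.getD (i / 4) o = a ∧ cp i = s := by
  obtain ⟨k, hk, rfl⟩ := List.getElem_of_mem h
  have : ∃ r < 4, cp (4 * k + r) = s := by
    obtain ⟨a, b⟩ := s
    cases a <;> cases b
    exacts [⟨3, by omega, by simp [cp]; omega⟩, ⟨1, by omega, by simp [cp]; omega⟩,
      ⟨2, by omega, by simp [cp]; omega⟩, ⟨0, by omega, by simp [cp]; omega⟩]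
  obtain ⟨r, hr, e⟩ := this
  exact ⟨4 * k + r, by omega, by
    rw [show (4 * k + r) / 4 = k by omega, List.getD_eq_getElem _ _ hk], e⟩

omit [DecidableEq O] in
theorem ex_bd (P L : List O) (rk : O → ℕ) : ∃ N, ∀ a, a ∈ P ∨ a ∈ L → rk a < N :=
  ⟨((P ++ L).map rk).sum + 1, fun a h => Nat.lt_succ_of_le
    (List.single_le_sum (by simp) _ (List.mem_map_of_mem (List.mem_append.2 h)))⟩

theorem gen_sound (wf : WF P L p1 p2 rk) (h : Weak 3 (inst P L p1 p2 base o)) :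
    ∃ ψ, Exact P L p1 p2 base ψ := by
  obtain ⟨u, v, h⟩ := h
  choose! ix i1 i2 i3 using fun a (h : a ∈ P) s => ex_idx (o := o) h s
  choose! jx j1 j2 j3 using fun a (h : a ∈ L) s => ex_idx (o := o) h s
  let U : O → Bool × Bool → V3 := fun a s => if a ∈ P then (u (ix a s) 0, u (ix a s) 1, u (ix a s) 2)
    else (v (jx a s) 0, v (jx a s) 1, v (jx a s) 2)
  have hU : ∀ a ∈ P, ∀ b ∈ L, ∀ s t, 0 < sg (en p1 p2 base a s b t) * ip (U a s) (U b t) := by
    intro a ha b hb s t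
    have := h _ (i1 a ha s) _ (j1 b hb t)
    simp only [inst, dec_pairsOf (i1 a ha s) (j1 b hb t), i2 a ha, i3 a ha, j2 b hb, j3 b hb,
      dotProduct, Fin.sum_univ_three] at this
    simpa only [U, if_pos ha, if_neg fun h => (wf.hP b h).1 hb, ip] using this
  obtain ⟨N, hN⟩ := ex_bd P L rk
  have W1 := wf.hP
  have W2 := wf.hL
  obtain ⟨ψ, hψ⟩ := exact_of (fun a => a ∈ P ∨ a ∈ L) p1 p2 rk U (by grind) (by grind)
    (fun a ha h' s t => by
      rcases ha with ha | ha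
      · have := hU a ha (p1 a) (by grind) s t
        rwa [en, if_pos rfl, ip_comm] at this
      · have := hU (p1 a) (by grind) a ha t s
        rwa [en, if_neg (by grind), if_neg (by grind), if_pos rfl] at this)
    (fun a ha h' s t => by
      rcases ha with ha | ha
      · have := hU a ha (p2 a) (by grind) s t
        rwa [en, if_neg (by grind), if_pos rfl, ip_comm] at this
      · have := hU (p2 a) (by grind) a ha t s
        rwa [en, if_neg (by grind), if_neg (by grind), if_neg (by grind), if_pos rfl] at this) N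
  refine ⟨ψ, fun a ha b hb => ?_⟩
  have A := hψ a (.inl ha) (hN _ (.inl ha))
  have B := hψ b (.inr hb) (hN _ (.inr hb))
  refine ⟨?_, fun hp => A.1.sign B.1 fun s t => ?_⟩
  · rintro (rfl | rfl | rfl | rfl)
    exacts [A.2.1 (.inr hb), A.2.2 (.inr hb), ip_comm _ _ ▸ B.2.1 (.inl ha),
      ip_comm _ _ ▸ B.2.2 (.inl ha)]
  · have := hU a ha b hb s t
    simp only [Par, not_or] at hp
    rwa [en, if_neg hp.1, if_neg hp.2.1, if_neg hp.2.2.1, if_neg hp.2.2.2] at this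

theorem sg_sq (b) : 0 < sg b * sg b := by cases b <;> simp [sg]

theorem gen_complete (wf : WF P L p1 p2 rk) {ψ} (h : Exact P L p1 p2 base ψ)
    (np : ∀ a, a ∈ P ∨ a ∈ L → p1 a ∈ P ∨ p1 a ∈ L ∨ p2 a ∈ P ∨ p2 a ∈ L →
      NP (ψ (p1 a)) (ψ (p2 a)))
    (hp : ∀ a ∈ P, 0 < ip (ψ a) (1, 1, 1)) (hl : ∀ b ∈ L, 0 < ip (ψ b) (0, 1, -1)) :
    Strong 1 (inst P L p1 p2 base o) := by
  obtain ⟨N, hN⟩ := ex_bd P L rk
  choose! d d1 d2 using fun a (s : Bool × Bool) h h' => (np a h h').dir (sg s.1) (sg s.2)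
  let U : ℝ → O → Bool × Bool → V3 := fun t a s => ψ a + t ^ (N - rk a + 1) • d a s
  have W1 := wf.hP
  have W2 := wf.hL
  have k0 : ∀ a s z, 0 < ip (ψ a) z → ∀ᶠ t in 𝓝[>] (0 : ℝ), 0 < ip (U t a s) z := fun a s z h => by
    simpa using ev_gen (ψ a) z (d a s) 0 (N - rk a) 0 (e := 1) (by simpa using h)
  have k1 : ∀ a ∈ P, ∀ b ∈ L, ∀ s s', ∀ᶠ t in 𝓝[>] (0 : ℝ),
      0 < sg (en p1 p2 base a s b s') * ip (U t a s) (U t b s') := by
    intro a ha b hb s s'
    have na := hN a (.inl ha)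
    have nb := hN b (.inr hb)
    obtain ⟨e0, e1⟩ := h a ha b hb
    unfold en
    split_ifs with c1 c2 c3 c4
    · exact ev_par _ _ _ _ (by grind) (e0 (.inl c1))
        (by rw [← c1, d1 a s (.inl ha) (by grind)]; exact sg_sq _)
    · exact ev_par _ _ _ _ (by grind) (e0 (.inr (.inl c2)))
        (by rw [← c2, d2 a s (.inl ha) (by grind)]; exact sg_sq _)
    · simp only [ip_comm (U _ a s)]
      exact ev_par _ _ _ _ (by grind) (ip_comm _ _ ▸ e0 (.inr (.inr (.inl c3))))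
        (by rw [← c3, d1 b s' (.inr hb) (by grind)]; exact sg_sq _)
    · simp only [ip_comm (U _ a s)]
      exact ev_par _ _ _ _ (by grind) (ip_comm _ _ ▸ e0 (.inr (.inr (.inr c4))))
        (by rw [← c4, d2 b s' (.inr hb) (by grind)]; exact sg_sq _)
    · exact ev_gen _ _ _ _ _ _ (e1 (by simp [Par, c1, c2, c3, c4]))
  have fP := P.finite_toSet
  have fL := L.finite_toSet
  obtain ⟨t, ⟨t1, t2⟩, t3⟩ := ((((eventually_all_finite fP).2 fun a ha =>
    (eventually_all_finite fL).2 fun b hb => eventually_all.2 fun s => eventually_all.2 fun s' =>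
      k1 a ha b hb s s').and ((eventually_all_finite fP).2 fun a ha => eventually_all.2 fun s =>
        k0 a s _ (hp a ha))).and ((eventually_all_finite fL).2 fun a ha => eventually_all.2 fun s =>
          k0 a s _ (hl a ha))).exists
  let p : ℕ → V3 := fun i => U t (P.getD (i / 4) o) (cp i)
  let l : ℕ → V3 := fun i => U t (L.getD (i / 4) o) (cp i)
  refine ⟨fun i _ => (p i).1 / ip (p i) (1, 1, 1),
    fun j _ => -((l j).1 - (l j).2.2) / ip (l j) (0, 1, -1), fun i => (p i).2.1 / ip (p i) (1, 1, 1),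
    fun j => -(l j).2.2 / ip (l j) (0, 1, -1), fun i hi j hj => ?_⟩
  simp only [inst] at hi hj
  have m : ∀ (P : List O) i, i < 4 * P.length → P.getD (i / 4) o ∈ P := fun P i h => by
    rw [List.getD_eq_getElem _ _ (by omega)]; exact List.getElem_mem _
  have a1 : 0 < ip (p i) (1, 1, 1) := t2 _ (m P i hi) _
  have a2 : 0 < ip (l j) (0, 1, -1) := t3 _ (m L j hj) _
  have a3 := t1 _ (m P i hi) _ (m L j hj) (cp i) (cp j)
  change 0 < _ * ip (p i) (l j) at a3
  simp only [inst, dec_pairsOf hi hj, dotProduct, Fin.sum_univ_one]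
  refine (div_pos a3 (mul_pos a1 a2)).trans_eq ?_
  field_simp
  simp only [ip]
  ring

end Pool.Agent.Lead.SR
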