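import Mathlib

/-!
Replacing incidences in a constructible configuration by strict sign conditions.
-/

namespace Pool.Agent.Lead.SR

open Filter Topology

abbrev V3 := ℝ × ℝ × ℝ

def ip (u v : V3) : ℝ := u.1 * v.1 + u.2.1 * v.2.1 + u.2.2 * v.2.2

def sg (b : Bool) : ℝ := cond b 1 (-1)

theorem ip_comm (u v) : ip u v = ip v u := by unfold ip; ring

theorem kill (a b x : V3) (P : Prop) (h : P → 0 < ip a x ∧ ip b x < 0) : ∃ w, (P → ip w x = 0) ∧
    (∀ z e, 0 < e * ip a z → 0 < e * ip b z → 0 < e * ip w z) ∧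
    ∀ z, ip a z = 0 → ip b z = 0 → ip w z = 0 := by
  by_cases hP : P
  · obtain ⟨h1, h2⟩ := h hP
    have e : ∀ z, ip ((-ip b x) • a + ip a x • b) z = -ip b x * ip a z + ip a x * ip b z := fun z => by
      simp only [ip, Prod.fst_add, Prod.snd_add, Prod.smul_fst, Prod.smul_snd, smul_eq_mul]; ring
    refine ⟨(-ip b x) • a + ip a x • b, fun _ => by rw [e]; ring, fun z c k1 k2 => ?_, fun z k1 k2 => ?_⟩
    · rw [e]; nlinarith [mul_pos h1 k2, mul_pos (neg_pos.2 h2) k1]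
    · rw [e, k1, k2]; ring
  · exact ⟨a, fun h => absurd h hP, fun _ _ h _ => h, fun _ h _ => h⟩

variable {O : Type}

def Hull (U : O → Bool × Bool → V3) (a : O) (w : V3) : Prop :=
  ∀ z e, (∀ s, 0 < e * ip (U a s) z) → 0 < e * ip w z

theorem exact_of (ok : O → Prop) (p1 p2 : O → O) (rk : O → ℕ) (U : O → Bool × Bool → V3)
    (r1 : ∀ a, ok a → ok (p1 a) → rk (p1 a) < rk a) (r2 : ∀ a, ok a → ok (p2 a) → rk (p2 a) < rk a)
    (h1 : ∀ a, ok a → ok (p1 a) → ∀ s t, 0 < sg s.1 * ip (U (p1 a) t) (U a s))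
    (h2 : ∀ a, ok a → ok (p2 a) → ∀ s t, 0 < sg s.2 * ip (U (p2 a) t) (U a s)) (n : ℕ) :
    ∃ ψ : O → V3, ∀ a, ok a → rk a < n → Hull U a (ψ a) ∧ (ok (p1 a) → ip (ψ a) (ψ (p1 a)) = 0) ∧
      (ok (p2 a) → ip (ψ a) (ψ (p2 a)) = 0) := by
  induction n with
  | zero => exact ⟨fun _ => 0, fun a _ h => absurd h (by omega)⟩
  | succ n ih =>
    obtain ⟨ψ, hψ⟩ := ih
    have : ∀ a, ∃ w, ok a → rk a = n → Hull U a w ∧ (ok (p1 a) → ip w (ψ (p1 a)) = 0) ∧
        (ok (p2 a) → ip w (ψ (p2 a)) = 0) := by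
      intro a
      by_cases ha : ok a ∧ rk a = n
      swap
      · exact ⟨0, fun h h' => absurd ⟨h, h'⟩ ha⟩
      have k1 : ok (p1 a) → ∀ s, 0 < sg s.1 * ip (U a s) (ψ (p1 a)) := fun h s => by
        rw [ip_comm]
        exact (hψ _ h (ha.2 ▸ r1 a ha.1 h)).1 _ _ (h1 a ha.1 h s)
      have k2 : ok (p2 a) → ∀ s, 0 < sg s.2 * ip (U a s) (ψ (p2 a)) := fun h s => by
        rw [ip_comm]
        exact (hψ _ h (ha.2 ▸ r2 a ha.1 h)).1 _ _ (h2 a ha.1 h s)
      have k3 : ∀ b, ∃ w, _ := fun b => kill (U a (true, b)) (U a (false, b)) (ψ (p1 a)) (ok (p1 a))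
        fun h => ⟨by simpa [sg] using k1 h (true, b), by simpa [sg] using k1 h (false, b)⟩
      choose w w1 w2 w3 using k3
      obtain ⟨v, v1, v2, v3⟩ := kill (w true) (w false) (ψ (p2 a)) (ok (p2 a)) fun h =>
        ⟨by simpa [sg] using w2 true _ _ (k2 h (true, true)) (k2 h (false, true)),
          by simpa [sg] using w2 false _ _ (k2 h (true, false)) (k2 h (false, false))⟩
      exact ⟨v, fun _ _ => ⟨fun z e h => v2 _ _ (w2 _ _ _ (h _) (h _)) (w2 _ _ _ (h _) (h _)),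
        fun h => v3 _ (w1 _ h) (w1 _ h), v1⟩⟩
    choose w hw using this
    refine ⟨fun a => if rk a = n then w a else ψ a, fun a ha h => ?_⟩
    have k : Hull U a (if rk a = n then w a else ψ a) ∧
        (ok (p1 a) → ip (if rk a = n then w a else ψ a) (ψ (p1 a)) = 0) ∧
        (ok (p2 a) → ip (if rk a = n then w a else ψ a) (ψ (p2 a)) = 0) := by
      split_ifs with e
      exacts [hw a ha e, hψ a ha (by omega)]
    refine ⟨k.1, fun h' => ?_, fun h' => ?_⟩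
    · have := r1 a ha h'
      simpa only [if_neg (show rk (p1 a) ≠ n by omega)] using k.2.1 h'
    · have := r2 a ha h'
      simpa only [if_neg (show rk (p2 a) ≠ n by omega)] using k.2.2 h'

theorem Hull.sign {U : O → Bool × Bool → V3} {a b v w} (ha : Hull U a v) (hb : Hull U b w) {e : ℝ}
    (h : ∀ s t, 0 < e * ip (U a s) (U b t)) : 0 < e * ip v w :=
  ha _ _ fun s => by rw [ip_comm]; exact hb _ _ fun t => by rw [ip_comm]; exact h s t

def NP (u v : V3) : Prop :=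
  u.1 * v.2.1 ≠ u.2.1 * v.1 ∨ u.1 * v.2.2 ≠ u.2.2 * v.1 ∨ u.2.1 * v.2.2 ≠ u.2.2 * v.2.1

theorem NP.dir {u v} (h : NP u v) (α β : ℝ) : ∃ d, ip d u = α ∧ ip d v = β := by
  rcases h with h | h | h <;> obtain ⟨c, hc⟩ := (Ne.isUnit (sub_ne_zero.2 h)).exists_left_inv
  · exact ⟨((α * v.2.1 - β * u.2.1) * c, (β * u.1 - α * v.1) * c, 0),
      by simp only [ip]; linear_combination α * hc, by simp only [ip]; linear_combination β * hc⟩
  · exact ⟨((α * v.2.2 - β * u.2.2) * c, 0, (β * u.1 - α * v.1) * c),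
      by simp only [ip]; linear_combination α * hc, by simp only [ip]; linear_combination β * hc⟩
  · exact ⟨(0, (α * v.2.2 - β * u.2.2) * c, (β * u.2.1 - α * v.2.1) * c),
      by simp only [ip]; linear_combination α * hc, by simp only [ip]; linear_combination β * hc⟩

theorem ev_pos {f : ℝ → ℝ} (hf : Continuous f) (h : 0 < f 0) : ∀ᶠ t in 𝓝[>] (0 : ℝ), 0 < f t :=
  nhdsWithin_le_nhds (hf.continuousAt.eventually (lt_mem_nhds h))

theorem ev_gen (u v d d' : V3) (i j : ℕ) {e : ℝ} (h : 0 < e * ip u v) :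
    ∀ᶠ t in 𝓝[>] (0 : ℝ), 0 < e * ip (u + t ^ (i + 1) • d) (v + t ^ (j + 1) • d') :=
  ev_pos (by unfold ip; fun_prop) (by simpa using h)

theorem ev_par (u v d d' : V3) {i j : ℕ} (hij : i < j) {e : ℝ} (h0 : ip u v = 0) (h : 0 < e * ip d v) :
    ∀ᶠ t in 𝓝[>] (0 : ℝ), 0 < e * ip (u + t ^ (i + 1) • d) (v + t ^ (j + 1) • d') := by
  obtain ⟨k, rfl⟩ := Nat.exists_eq_add_of_lt hij
  filter_upwards [ev_pos (f := fun t => e * (ip d v + t ^ (k + 1) * (ip u d' + t ^ (i + 1) * ip d d')))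
    (by fun_prop) (by simpa using h), self_mem_nhdsWithin] with t h1 h2
  refine (mul_pos (pow_pos (show 0 < t from h2) (i + 1)) h1).trans_eq ?_
  simp only [ip, Prod.fst_add, Prod.snd_add, Prod.smul_fst, Prod.smul_snd, smul_eq_mul] at h0 ⊢
  linear_combination (-e) * h0

theorem frame (X Y O V H L : V3) (h1 : ip V Y = 0) (h2 : ip H X = 0) (h3 : ip L X = 0)
    (h4 : ip L Y = 0) (k1 : ip V X ≠ 0) (k2 : ip H Y ≠ 0) (k3 : ip L O ≠ 0) (p : V3) :
    ∃ q : V3, ∀ l, ip p l = ip q (ip X l, ip Y l, ip O l) := by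
  let M : Matrix (Fin 3) (Fin 3) ℝ := !![X.1, Y.1, O.1; X.2.1, Y.2.1, O.2.1; X.2.2, Y.2.2, O.2.2]
  have hM : M.det ≠ 0 := by
    intro h
    obtain ⟨v, hv, e⟩ := Matrix.exists_mulVec_eq_zero_iff.2 h
    have e0 := congrFun e 0
    have e1 := congrFun e 1
    have e2 := congrFun e 2
    simp [M, Matrix.mulVec, dotProduct, Fin.sum_univ_three] at e0 e1 e2
    simp only [ip] at *
    have c : v 2 = 0 := mul_left_cancel₀ k3 (by
      linear_combination L.1 * e0 + L.2.1 * e1 + L.2.2 * e2 - v 0 * h3 - v 1 * h4)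
    have a : v 0 = 0 := mul_left_cancel₀ k1 (by
      rw [c] at e0 e1 e2
      linear_combination V.1 * e0 + V.2.1 * e1 + V.2.2 * e2 - v 1 * h1)
    have b : v 1 = 0 := mul_left_cancel₀ k2 (by
      rw [c] at e0 e1 e2
      linear_combination H.1 * e0 + H.2.1 * e1 + H.2.2 * e2 - v 0 * h2)
    exact hv (by ext i; fin_cases i <;> simp [a, b, c])
  obtain ⟨v, e⟩ := (Matrix.mulVec_surjective_iff_isUnit.2 ((Matrix.isUnit_iff_isUnit_det _).2
    (Ne.isUnit hM))) ![p.1, p.2.1, p.2.2]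
  have e0 := congrFun e 0
  have e1 := congrFun e 1
  have e2 := congrFun e 2
  simp [M, Matrix.mulVec, dotProduct, Fin.sum_univ_three] at e0 e1 e2
  refine ⟨(v 0, v 1, v 2), fun l => ?_⟩
  simp only [ip]
  rw [← e0, ← e1, ← e2]
  ring

end Pool.Agent.Lead.SR
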