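import Mathlib

namespace Pool.Agent.Lead.SR

/-- The distance of hyperbolic `(k + 1)`-space of curvature `-1` in the upper half-space model:
a point is a pair `(x, s)` with `x` in Euclidean `k`-space and height `s > 0`. -/
noncomputable def hdist {k : ℕ} (a b : EuclideanSpace ℝ (Fin k) × Set.Ioi (0 : ℝ)) : ℝ :=
  2 * Real.arsinh (√(dist a.1 b.1 ^ 2 + (a.2.1 - b.2.1) ^ 2) / (2 * √(a.2.1 * b.2.1)))

end Pool.Agent.Lead.SR
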