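import Pool.Agent.Lead.SR.Ball
import Pool.Agent.Lead.SR.HypDefs
import Pool.Agent.H38.ER.FmPT

/-!
Unit ball graphs in hyperbolic space.
-/

namespace Pool.Agent.Lead.SR

open Pool.Agent.H38.ER
open Pool.Agent.H38.NP Filter Topology Metric

def HG (k : ℕ) (p : ℕ × LP) : Prop :=
  ∃ r > (0 : ℝ), ∃ c : Fin p.1 → EuclideanSpace ℝ (Fin k) × Set.Ioi (0 : ℝ),
    ∀ u v, u ≠ v → ((graphOf p.1 p.2).Adj u v ↔ hdist (c u) (c v) ≤ 2 * r)

theorem hdist_le {k} (a b : EuclideanSpace ℝ (Fin k) × Set.Ioi (0 : ℝ)) {r : ℝ} (hr : 0 < r) :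
    hdist a b ≤ 2 * r ↔ ∑ i, (a.1 i - b.1 i) ^ 2 + (a.2.1 - b.2.1) ^ 2 ≤
      (2 * Real.sinh r) ^ 2 * (a.2.1 * b.2.1) := by
  have h : 0 < a.2.1 * b.2.1 := mul_pos a.2.2 b.2.2
  have := Real.sinh_pos_iff.2 hr
  rw [hdist, mul_le_mul_iff_right₀ two_pos, ← Real.sinh_le_sinh, Real.sinh_arsinh,
    div_le_iff₀ (by positivity), Real.sqrt_le_left (by positivity), EuclideanSpace.dist_eq,
    Real.sq_sqrt (by positivity), mul_pow, mul_pow, Real.sq_sqrt h.le]
  simp only [Real.dist_eq, sq_abs]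
  constructor <;> intro h <;> linarith

theorem hg_iff {k N E} : HG k (N, E) ↔ ∃ s > (0 : ℝ), ∃ (c : ℕ → Fin k → ℝ) (h : ℕ → ℝ),
    (∀ v < N, 0 < h v) ∧ ∀ u < N, ∀ v < N, u ≠ v → ((u, v) ∈ E ∨ (v, u) ∈ E ↔
      ∑ i, (c u i - c v i) ^ 2 + (h u - h v) ^ 2 ≤ s * (h u * h v)) := by
  have e : ∀ u v : Fin N, u ≠ v → ((graphOf N E).Adj u v ↔ (u.val, v.val) ∈ E ∨ (v.val, u.val) ∈ E) :=
    fun u v h => by simp [graphOf_adj, h]
  constructor
  · rintro ⟨r, hr, c, k⟩
    refine ⟨_, by have := Real.sinh_pos_iff.2 hr; exact (by positivity : 0 < (2 * Real.sinh r) ^ 2),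
      fun u => if h : u < N then (c ⟨u, h⟩).1 else 0, fun u => if h : u < N then (c ⟨u, h⟩).2 else 0,
      fun v hv => by simp only [dif_pos hv]; exact (c ⟨v, hv⟩).2.2, fun u hu v hv n => ?_⟩
    have n' : (⟨u, hu⟩ : Fin N) ≠ ⟨v, hv⟩ := fun e => n (congrArg Fin.val e)
    simp only [dif_pos hu, dif_pos hv]
    exact (e _ _ n').symm.trans ((k _ _ n').trans (hdist_le _ _ hr))
  · rintro ⟨s, hs, c, h, h0, k⟩
    have hr : 0 < Real.arsinh (√s / 2) := Real.arsinh_pos_iff.2 (by positivity)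
    refine ⟨_, hr, fun u => (WithLp.toLp 2 (c u), ⟨h u, h0 _ u.2⟩), fun u v n =>
      (e _ _ n).trans ((k _ u.2 _ v.2 (Fin.val_ne_of_ne n)).trans ?_)⟩
    rw [hdist_le _ _ hr, Real.sinh_arsinh, mul_div_cancel₀ _ two_ne_zero, Real.sq_sqrt hs.le]

def had (p : ℕ × ℕ × LP) (u v : ℕ) : Bool :=
  if u < 2 * p.2.1 then (if v < 2 * p.2.1 then decide (u % 2 = v % 2) else
    decide (ent p.2.2 (v - 2 * p.2.1) (u / 2) = decide (u % 2 = 0))) else
  if v < 2 * p.2.1 then decide (ent p.2.2 (u - 2 * p.2.1) (v / 2) = decide (v % 2 = 0)) else true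

theorem had_sy (p u v) : had p u v = had p v u := by
  unfold had; split_ifs <;> simp [eq_comm]

theorem hyp_sound {k p} (h : HG k (2 * p.2.1 + p.1, edgesOf (2 * p.2.1 + p.1) (had p))) :
    Weak (k + 2) p := by
  obtain ⟨m, n, E⟩ := p
  obtain ⟨s, -, c, h, h0, H⟩ := hg_iff.1 h
  refine ⟨fun i => Fin.cons 1 (Fin.cons (∑ l, c (2 * n + i) l ^ 2 + h (2 * n + i) ^ 2) (c (2 * n + i))),
    fun j => Fin.cons (h (2 * j) * (∑ l, c (2 * j + 1) l ^ 2 + h (2 * j + 1) ^ 2) -
      h (2 * j + 1) * (∑ l, c (2 * j) l ^ 2 + h (2 * j) ^ 2)) (Fin.cons (h (2 * j) - h (2 * j + 1))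
        fun l => 2 * (h (2 * j + 1) * c (2 * j) l - h (2 * j) * c (2 * j + 1) l)),
    fun i hi j hj => ?_⟩
  simp only at hi hj h0 H
  have k : ∀ t < 2, ent E i j = decide (t = 0) ↔ ∑ l, (c (2 * j + t) l - c (2 * n + i) l) ^ 2 +
      (h (2 * j + t) - h (2 * n + i)) ^ 2 ≤ s * (h (2 * j + t) * h (2 * n + i)) := fun t ht => by
    rw [← H _ (by omega) _ (by omega) (by omega), mem_edgesOf, mem_edgesOf, had_sy _ (2 * n + i), had,
      if_pos (by simp only; omega), if_neg (by simp only; omega), show (2 * j + t) / 2 = j by omega,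
      show (2 * j + t) % 2 = t by omega]
    simp [show 2 * j + t < 2 * n + m by omega, hi]
  have a := k 0 (by omega)
  have b := k 1 (by omega)
  have h1 := h0 (2 * j) (by omega)
  have h2 := h0 (2 * j + 1) (by omega)
  have e : ∀ u, ∑ l, (c u l - c (2 * n + i) l) ^ 2 = ∑ l, c u l ^ 2 + ∑ l, c (2 * n + i) l ^ 2 -
      2 * ∑ l, c (2 * n + i) l * c u l := fun u => by
    simp only [Finset.mul_sum, ← Finset.sum_add_distrib, ← Finset.sum_sub_distrib]
    exact Finset.sum_congr rfl fun _ _ => by ring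
  have e' : ∑ l, c (2 * n + i) l * (2 * (h (2 * j + 1) * c (2 * j) l - h (2 * j) * c (2 * j + 1) l)) =
      2 * (h (2 * j + 1) * ∑ l, c (2 * n + i) l * c (2 * j) l -
        h (2 * j) * ∑ l, c (2 * n + i) l * c (2 * j + 1) l) := by
    simp only [Finset.mul_sum, ← Finset.sum_sub_distrib]
    exact Finset.sum_congr rfl fun _ _ => by ring
  simp only [dotProduct, Fin.sum_univ_succ, Fin.cons_zero, Fin.cons_succ, e']
  simp only [e, add_zero] at a b
  cases z : ent E i j <;> simp [z, sg] at a b ⊢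
  · nlinarith [mul_lt_mul_of_pos_left a h2, mul_le_mul_of_nonneg_left b h1.le]
  · nlinarith [mul_lt_mul_of_pos_left b h1, mul_le_mul_of_nonneg_left a h2.le]

theorem hyp_complete {k p} (h : Strong k p) :
    HG k (2 * p.2.1 + p.1, edgesOf (2 * p.2.1 + p.1) (had p)) := by
  obtain ⟨m, n, E⟩ := p
  obtain ⟨x, a, y, b, h⟩ := h
  let c : ℝ → ℕ → Fin k → ℝ := fun e u l => if u < 2 * n then
    e * (if u % 2 = 0 then -3 / 2 else 3 / 8) * a (u / 2) l else e ^ 2 * x (u - 2 * n) l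
  let H : ℝ → ℕ → ℝ := fun e u => if u < 2 * n then (if u % 2 = 0 then
    2 - 3 / 2 * e ^ 2 * ∑ l, a (u / 2) l ^ 2 + 2 * e ^ 3 * b (u / 2) else
    1 / 2 + 3 / 32 * e ^ 2 * ∑ l, a (u / 2) l ^ 2 + e ^ 3 * b (u / 2) / 2) else 1 + e ^ 3 * y (u - 2 * n)
  let F : ℝ → ℕ → ℕ → ℝ := fun e u v => 1 / 2 * (H e u * H e v) - (H e u - H e v) ^ 2 -
    ∑ l, (c e u l - c e v l) ^ 2
  have mix : ∀ u < 2 * n, ∀ v < 2 * n + m, ¬ v < 2 * n →
      ∀ᶠ e in 𝓝[>] (0 : ℝ), 0 < sg (had (m, n, E) u v) * F e u v := fun u hu v hv hv' => by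
    have h := h (v - 2 * n) (by simp only; omega) (u / 2) (by simp only; omega)
    have e1 : ∀ e μ : ℝ, ∑ l, (e * μ * a (u / 2) l - e ^ 2 * x (v - 2 * n) l) ^ 2 =
        e ^ 2 * μ ^ 2 * ∑ l, a (u / 2) l ^ 2 + e ^ 4 * ∑ l, x (v - 2 * n) l ^ 2 -
          2 * e ^ 3 * μ * a (u / 2) ⬝ᵥ x (v - 2 * n) := fun e μ => by
      simp only [dotProduct, Finset.mul_sum, ← Finset.sum_add_distrib, ← Finset.sum_sub_distrib]
      exact Finset.sum_congr rfl fun _ _ => by ring
    simp only [F, H, c, had, if_pos hu, if_neg hv', sg_eq, e1]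
    generalize ∑ l, a (u / 2) l ^ 2 = A, ∑ l, x (v - 2 * n) l ^ 2 = X, a (u / 2) ⬝ᵥ x (v - 2 * n) = W,
      y (v - 2 * n) = y, b (u / 2) = b, sg (ent E (v - 2 * n) (u / 2)) = z at *
    by_cases p : u % 2 = 0 <;> simp only [p, if_true, if_false, decide_true, decide_false, sg,
      cond_true, cond_false]
    · filter_upwards [self_mem_nhdsWithin, ev_pos (f := fun e => z * (3 * (y - W - b) - e * (X +
        (3 / 2 * A - e * (2 * b - y)) ^ 2 + e * y * (3 / 4 * A - e * b)))) (by fun_prop)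
        (by simp only [zero_mul, sub_zero]; linarith)] with e he k
      exact (mul_pos (pow_pos (show 0 < e from he) 3) k).trans_eq (by ring)
    · filter_upwards [self_mem_nhdsWithin, ev_pos (f := fun e => z * (3 / 4 * (y - W - b) + e * (X +
        (3 / 32 * A + e * (b / 2 - y)) ^ 2 - e * y * (3 / 64 * A + e * b / 4)))) (by fun_prop)
        (by simp only [zero_mul, add_zero]; linarith)] with e he k
      exact (mul_pos (pow_pos (show 0 < e from he) 3) k).trans_eq (by ring)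
  have k : ∀ u < 2 * n + m, ∀ v < 2 * n + m,
      ∀ᶠ e in 𝓝[>] (0 : ℝ), 0 < sg (had (m, n, E) u v) * F e u v := fun u hu v hv => by
    by_cases h1 : u < 2 * n <;> by_cases h2 : v < 2 * n
    rotate_left
    · exact mix u h1 v hv h2
    · refine (mix v h2 u hu h1).mono fun e he => he.trans_eq ?_
      rw [had_sy]
      simp only [F, sub_sq_comm (H e u), sub_sq_comm (c e u _), mul_comm (H e u)]
    all_goals
      simp only [F, H, c, had, h1, h2, if_true, if_false, sg_par u v]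
      by_cases s1 : u % 2 = 0 <;> by_cases s2 : v % 2 = 0 <;>
      (try simp only [s1, s2, if_true, if_false]) <;>
      exact ev_pos (by fun_prop) (by norm_num [sg])
  have k' : ∀ u, ∀ᶠ e in 𝓝[>] (0 : ℝ), 0 < H e u := fun u => by
    simp only [H]; split_ifs <;> exact ev_pos (by fun_prop) (by simp)
  have fin := Set.finite_lt_nat (2 * n + m)
  obtain ⟨e, e1, e2⟩ := (((eventually_all_finite fin).2 fun u hu => (eventually_all_finite fin).2
    (k u hu)).and ((eventually_all_finite fin).2 fun u _ => k' u)).exists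
  refine (hg_iff (N := 2 * n + m)).2 ⟨1 / 2, by norm_num, c e, H e, e2, fun u hu v hv _ => ?_⟩
  have := e1 u hu v hv
  simp only [F] at this
  simp only [mem_edgesOf, had_sy _ v u, hu, hv]
  cases z : had (m, n, E) u v <;> simp only [z, sg, cond_true, cond_false] at this <;> simp <;> linarith

theorem hyp_erh (d : ℕ) : ERH (fun _ => True) (HG (d + 1)) :=
  (sr_erh d).reduce (fun p => (2 * p.2.1 + p.1, edgesOf (2 * p.2.1 + p.1) (had p)))
    (PT.mk (by fun_prop) (PT.edgesOf (by fun_prop) (by unfold had; fun_prop))) fun _ h =>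
      ⟨trivial, hyp_complete, fun k => h (hyp_sound k)⟩

def sqT (i j : ℕ) : Tm := ((Tm.var i).add (Tm.var j).neg).mul ((Tm.var i).add (Tm.var j).neg)

def cmpF (b : Bool) (s t : Tm) : Fm := cond b (.not (.lt t s)) (.lt t s)

def hypF (k : ℕ) (p : ℕ × LP) : Fm := (Fm.lt (.num 0) (.var 0)).and
  ((allF ((List.range p.1).map fun v => .lt (.num 0) (.var (v * (k + 1) + k + 1)))).and
  (allF ((List.range p.1).flatMap fun u => ((List.range p.1).filter fun v => decide (u ≠ v)).map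
    fun v => cmpF (ent p.2 u v || ent p.2 v u)
      ((sumT ((List.range k).map fun i => sqT (u * (k + 1) + i + 1) (v * (k + 1) + i + 1))).add
        (sqT (u * (k + 1) + k + 1) (v * (k + 1) + k + 1)))
      ((Tm.var 0).mul ((Tm.var (u * (k + 1) + k + 1)).mul (.var (v * (k + 1) + k + 1)))))))

theorem holds_cmp (x b s t) : (cmpF b s t).Holds x ↔ (b = true ↔ s.ev x ≤ t.ev x) := by
  cases b <;> simp [cmpF, Fm.Holds]

theorem ev_sqT (x : ℕ → ℝ) (i j) : (sqT i j).ev x = (x i - x j) ^ 2 := by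
  simp [sqT, Tm.ev, sq, sub_eq_add_neg]

theorem ev_sq (x : ℕ → ℝ) (k) (f g : ℕ → ℕ) : (sumT ((List.range k).map fun i => sqT (f i) (g i))).ev x =
    ∑ i : Fin k, (x (f i) - x (g i)) ^ 2 := by
  rw [ev_sumT, List.map_map, ← List.map_coe_finRange_eq_range, List.map_map, ← List.ofFn_eq_map,
    List.sum_ofFn]
  simp [ev_sqT]

theorem hyp_mem (k : ℕ) : Reduces (lang (HG k)) (lang ETR) := by
  refine reduces_etr (hypF k) (by unfold hypF cmpF sqT; fun_prop) fun ⟨N, E⟩ => hg_iff.trans ?_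
  simp only [ETR, hypF, Fm.Holds, holds_allF, List.forall_mem_map, List.forall_mem_flatMap,
    List.mem_range, List.mem_filter, holds_cmp, Tm.ev, ev_sq, Nat.cast_zero, ent, and_imp,
    decide_eq_true_eq, Bool.or_eq_true, ev_sqT]
  refine ⟨fun ⟨s, hs, c, h, h0, H⟩ => ?_, fun ⟨x, h1, h2, h3⟩ => ⟨_, h1,
    fun u i => x (u * (k + 1) + i + 1), fun u => x (u * (k + 1) + k + 1), h2, h3⟩⟩
  let x : ℕ → ℝ := fun j => if j = 0 then s else if e : (j - 1) % (k + 1) < k then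
    c ((j - 1) / (k + 1)) ⟨_, e⟩ else h ((j - 1) / (k + 1))
  have d : ∀ u i, i ≤ k → (u * (k + 1) + i) / (k + 1) = u ∧ (u * (k + 1) + i) % (k + 1) = i :=
    fun u i hi => (Nat.div_mod_unique (by omega)).2 ⟨by ring, by omega⟩
  have e1 : ∀ u (i : Fin k), x (u * (k + 1) + i + 1) = c u i := fun u i => by
    simp [x, (d u i i.2.le).1, (d u i i.2.le).2]
  have e2 : ∀ u, x (u * (k + 1) + k + 1) = h u := fun u => by
    simp [x, (d u k le_rfl).1, (d u k le_rfl).2]
  exact ⟨x, hs, by simpa only [e2] using h0, by simp only [e1, e2]; exact H⟩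

def ballF (k : ℕ) (p : ℕ × LP) : Fm :=
  (allF ((List.range p.1).map fun v => .lt (.num 0) (.var (v * (k + 1) + k)))).and
  (allF ((List.range p.1).flatMap fun u => ((List.range p.1).filter fun v => decide (u ≠ v)).map
    fun v => cmpF (ent p.2 u v || ent p.2 v u)
      (sumT ((List.range k).map fun i => sqT (u * (k + 1) + i) (v * (k + 1) + i)))
      (((Tm.var (u * (k + 1) + k)).add (.var (v * (k + 1) + k))).mul
        ((Tm.var (u * (k + 1) + k)).add (.var (v * (k + 1) + k))))))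

theorem ball_mem (k : ℕ) : Reduces (lang (BG k)) (lang ETR) := by
  refine reduces_etr (ballF k) (by unfold ballF cmpF sqT; fun_prop) fun ⟨N, E⟩ => ?_
  have : graphOf N E = graphOf N (edgesOf N fun u v => ent E u v || ent E v u) := by
    ext u v; simp [graphOf_adj, mem_edgesOf, ent, or_comm]
  refine Iff.trans (b := BG k (N, edgesOf N fun u v => ent E u v || ent E v u))
    (by simp only [BG, ← this]) ((bg_iff fun _ _ => Bool.or_comm _ _).trans ?_)
  simp only [ETR, ballF, Fm.Holds, holds_allF, List.forall_mem_map, List.forall_mem_flatMap,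
    List.mem_range, List.mem_filter, holds_cmp, Tm.ev, ev_sq, Nat.cast_zero, and_imp,
    decide_eq_true_eq, ← sq]
  refine ⟨fun ⟨c, h, h0, H⟩ => ?_, fun ⟨x, h2, h3⟩ =>
    ⟨fun u i => x (u * (k + 1) + i), fun u => x (u * (k + 1) + k), h2, h3⟩⟩
  let x : ℕ → ℝ := fun j => if e : j % (k + 1) < k then c (j / (k + 1)) ⟨_, e⟩ else h (j / (k + 1))
  have d : ∀ u i, i ≤ k → (u * (k + 1) + i) / (k + 1) = u ∧ (u * (k + 1) + i) % (k + 1) = i :=
    fun u i hi => (Nat.div_mod_unique (by omega)).2 ⟨by ring, by omega⟩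
  have e1 : ∀ u (i : Fin k), x (u * (k + 1) + i) = c u i := fun u i => by
    simp [x, (d u i i.2.le).1, (d u i i.2.le).2]
  have e2 : ∀ u, x (u * (k + 1) + k) = h u := fun u => by
    simp [x, (d u k le_rfl).1, (d u k le_rfl).2]
  exact ⟨x, by simpa only [e2] using h0, by simpa only [e1, e2] using H⟩

end Pool.Agent.Lead.SR
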