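import Pool.Agent.Lead.SR.Lift

/-!
Long and short edges on complete bipartite graphs.
-/

namespace Pool.Agent.Lead.SR

open Pool.Agent.H38.ER (ERH)
open Pool.Agent.H38.NP Filter Topology

theorem ev_lin {A B : ℝ} (h : B ≠ 0) : ∀ᶠ t in 𝓝[>] (0 : ℝ), A + B * t ≠ 0 := by
  by_cases hA : A = 0
  · filter_upwards [self_mem_nhdsWithin] with t ht
    simpa [hA, h] using (show 0 < t from ht).ne'
  · exact nhdsWithin_le_nhds ((show Continuous fun t : ℝ => A + B * t by fun_prop).continuousAt.eventually_ne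
      (by simpa using hA))

theorem ev_quad {A B C : ℝ} (h : C ≠ 0) : ∀ᶠ t in 𝓝[>] (0 : ℝ), A + (B + C * t) * t ≠ 0 := by
  by_cases hA : A = 0
  · filter_upwards [self_mem_nhdsWithin, ev_lin (A := B) h] with t ht h'
    simpa [hA, h'] using (show 0 < t from ht).ne'
  · exact nhdsWithin_le_nhds ((show Continuous fun t : ℝ => A + (B + C * t) * t by
      fun_prop).continuousAt.eventually_ne (by simpa using hA))

theorem gen_pos {ι : Type} [Finite ι] (X Y : ι → ℝ) {κ : ι → ℝ} (hκ : κ.Injective) :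
    ∀ᶠ t in 𝓝[>] (0 : ℝ), let z : ι → EuclideanSpace ℝ (Fin 2) :=
      fun v => WithLp.toLp 2 ![X v + t * κ v, Y v + t * κ v ^ 2]
    z.Injective ∧ ∀ u w v, u ≠ w → z v ∉ openSegment ℝ (z u) (z w) := by
  have a : ∀ u w, ∀ᶠ t in 𝓝[>] (0 : ℝ), u ≠ w → X u - X w + (κ u - κ w) * t ≠ 0 := fun u w => by
    by_cases h : u = w
    · simp [h]
    · exact (ev_lin (sub_ne_zero.2 (hκ.ne h))).mono fun _ h _ => h
  have b : ∀ u w v, ∀ᶠ t in 𝓝[>] (0 : ℝ), u ≠ w → u ≠ v → v ≠ w →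
      (X w - X u) * (Y v - Y u) - (X v - X u) * (Y w - Y u) + (((X w - X u) * (κ v ^ 2 - κ u ^ 2) +
        (κ w - κ u) * (Y v - Y u) - (X v - X u) * (κ w ^ 2 - κ u ^ 2) - (κ v - κ u) * (Y w - Y u)) +
          (κ u - κ w) * (κ u - κ v) * (κ v - κ w) * t) * t ≠ 0 := fun u w v => by
    by_cases h : u ≠ w ∧ u ≠ v ∧ v ≠ w
    · exact (ev_quad (mul_ne_zero (mul_ne_zero (sub_ne_zero.2 (hκ.ne h.1))
        (sub_ne_zero.2 (hκ.ne h.2.1))) (sub_ne_zero.2 (hκ.ne h.2.2)))).mono fun _ h _ _ _ => h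
    · exact .of_forall fun _ a b c => absurd ⟨a, b, c⟩ h
  filter_upwards [eventually_all.2 fun u => eventually_all.2 (a u),
    eventually_all.2 fun u => eventually_all.2 fun w => eventually_all.2 (b u w)] with t a b z
  have inj : z.Injective := fun u w e => by
    by_contra h
    have := congrArg (· 0) e
    simp [z] at this
    exact a u w h (by linarith)
  refine ⟨inj, fun u w v h m => ?_⟩
  by_cases h1 : u = v
  · subst h1; exact h (inj (left_mem_openSegment_iff.1 m))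
  by_cases h2 : v = w
  · subst h2; exact h (inj (right_mem_openSegment_iff.1 m))
  obtain ⟨α, β, -, -, s, e⟩ := m
  have e0 := congrArg (· 0) e
  have e1 := congrArg (· 1) e
  simp [z] at e0 e1
  obtain rfl : α = 1 - β := by linarith
  refine b u w v h h1 h2 ?_
  linear_combination (Y w - Y u + t * (κ w ^ 2 - κ u ^ 2)) * e0 - (X w - X u + t * (κ w - κ u)) * e1

theorem dist_le_one (a b : EuclideanSpace ℝ (Fin 2)) :
    dist a b ≤ 1 ↔ (a 0 - b 0) ^ 2 + (a 1 - b 1) ^ 2 ≤ 1 := by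
  rw [EuclideanSpace.dist_eq, Real.sqrt_le_left zero_le_one]; simp [Real.dist_eq]

def dbl (p : ℕ × ℕ × LP) : ℕ × ℕ × LP := (p.1, 2 * p.2.1, pairsOf p.1 (2 * p.2.1)
  fun i j => decide (ent p.2.2 i (j / 2) = decide (j % 2 = 0)))

theorem pt_dbl : PT dbl := by
  unfold dbl
  exact PT.mk (by fun_prop) (PT.mk (by fun_prop) (pt_pairsOf (by fun_prop) (by fun_prop)
    (by fun_prop)))

def LS (m n : ℕ) (E : LP) : Prop := ∃ x : Fin m ⊕ Fin n → EuclideanSpace ℝ (Fin 2),
  x.Injective ∧ (∀ i j v, x v ∉ openSegment ℝ (x (.inl i)) (x (.inr j))) ∧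
    ∀ i j, dist (x (.inl i)) (x (.inr j)) ≤ 1 ↔ (i.val, j.val) ∈ E

theorem ls_erh : ERH (fun _ : ℕ × ℕ × LP => True) fun p => LS p.1 p.2.1 p.2.2 := by
  refine sr1_erh.reduce dbl pt_dbl ?_
  rintro ⟨m, n, E⟩ hp
  refine ⟨trivial, fun ⟨x, a, y, b, h⟩ => ?_, fun ⟨x, _, _, h⟩ => hp ?_⟩
  · show LS m (2 * n) _
    let σ : ℕ → ℝ := fun j => sg (decide (j % 2 = 0))
    let X : ℝ → Fin m ⊕ Fin (2 * n) → ℝ := fun e =>
      Sum.elim (fun i => e ^ 2 * x i 0) fun j => -σ j * e * a (j / 2) 0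
    let Y : ℝ → Fin m ⊕ Fin (2 * n) → ℝ := fun e => Sum.elim (fun i => e ^ 3 * y i)
      fun j => σ j * (1 - e ^ 2 * a (j / 2) 0 ^ 2 / 2) + e ^ 3 * b (j / 2)
    let s : Fin m → Fin (2 * n) → ℝ := fun i j => sg (ent (dbl (m, n, E)).2.2 i j)
    have k : ∀ i j, ∀ᶠ e in 𝓝[>] (0 : ℝ), 0 < s i j *
        (1 - (X e (.inl i) - X e (.inr j)) ^ 2 - (Y e (.inl i) - Y e (.inr j)) ^ 2) := fun i j => by
      have h := h i i.2 (j / 2) (by have := j.2; simp only; omega)
      have e1 : s i j = sg (ent E i (j / 2)) * σ j := by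
        simp only [s, dbl, dec_pairsOf i.2 j.2, σ]
        cases ent E i (j / 2) <;> cases decide (j.val % 2 = 0) <;> simp [sg]
      have e2 : σ j ^ 2 = 1 := by simp only [σ]; cases decide (j.val % 2 = 0) <;> simp [sg]
      simp only [dotProduct, Fin.sum_univ_one] at h
      filter_upwards [self_mem_nhdsWithin, ev_pos (f := fun e => sg (ent E i (j / 2)) *
        (2 * (y i - a (j / 2) 0 * x i 0 - b (j / 2)) - σ j * e * (x i 0 ^ 2 +
          (σ j * a (j / 2) 0 ^ 2 / 2 + e * (y i - b (j / 2))) ^ 2))) (by fun_prop)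
        (by simp only [mul_zero, zero_mul, sub_zero]; linarith)] with e he k
      refine (mul_pos (pow_pos (show 0 < e from he) 3) k).trans_eq ?_
      simp only [X, Y, Sum.elim_inl, Sum.elim_inr, e1]
      generalize σ j = σ at e2
      rcases sq_eq_one_iff.1 e2 with rfl | rfl <;> ring
    obtain ⟨e, he⟩ := (eventually_all.2 fun i => eventually_all.2 (k i)).exists
    obtain ⟨κ, hκ⟩ := Countable.exists_injective_nat (Fin m ⊕ Fin (2 * n))
    obtain ⟨t, ⟨t1, t2⟩, t3⟩ := ((gen_pos (X e) (Y e) (κ := fun v => κ v)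
      (Nat.cast_injective.comp hκ)).and (eventually_all.2 fun i => eventually_all.2 fun j =>
        ev_pos (f := fun t => s i j * (1 - (X e (.inl i) + t * κ (.inl i) -
          (X e (.inr j) + t * κ (.inr j))) ^ 2 - (Y e (.inl i) + t * κ (.inl i) ^ 2 -
            (Y e (.inr j) + t * κ (.inr j) ^ 2)) ^ 2)) (by fun_prop) (by simpa using he i j))).exists
    refine ⟨_, t1, fun i j v => t2 _ _ v (by simp), fun i j => ?_⟩
    have := t3 i j
    rw [dist_le_one]
    simp only [s, ent] at this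
    by_cases c : (i.val, j.val) ∈ (dbl (m, n, E)).2.2 <;> simp [c, sg] at this ⊢ <;> linarith
  · let p : ℕ → EuclideanSpace ℝ (Fin 2) := fun i => if h : i < m then x (.inl ⟨i, h⟩) else 0
    let c : ℕ → EuclideanSpace ℝ (Fin 2) := fun j => if h : j < 2 * n then x (.inr ⟨j, h⟩) else 0
    refine ⟨fun i => ![p i 0, p i 1, 1], fun j => ![2 * (c (2 * j) 0 - c (2 * j + 1) 0),
      2 * (c (2 * j) 1 - c (2 * j + 1) 1), c (2 * j + 1) 0 ^ 2 + c (2 * j + 1) 1 ^ 2 -
        c (2 * j) 0 ^ 2 - c (2 * j) 1 ^ 2], fun i hi j hj => ?_⟩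
    simp only at hi hj
    have h1 : 2 * j < 2 * n := by omega
    have h2 : 2 * j + 1 < 2 * n := by omega
    have k : ∀ j < 2 * n, dist (p i) (c j) ≤ 1 ↔ (i, j) ∈ (dbl (m, n, E)).2.2 := fun j hj => by
      simp only [p, c, dif_pos hi, dif_pos hj]; exact h ⟨i, hi⟩ ⟨j, hj⟩
    have a := k _ h1
    have b := k _ h2
    simp only [dist_le_one, dbl, mem_pairsOf, hi, h1, h2, show 2 * j / 2 = j by omega,
      show (2 * j + 1) / 2 = j by omega, show 2 * j % 2 = 0 by omega,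
      show (2 * j + 1) % 2 = 1 by omega] at a b
    simp only [dotProduct, Fin.sum_univ_three]
    cases e : ent E i j <;> simp [e, sg] at a b ⊢ <;> linarith

end Pool.Agent.Lead.SR
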