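import Pool.Agent.Lead.SR.Conf4

/-!
Sign matrices of point-hyperplane configurations in every dimension.
-/

namespace Pool.Agent.Lead.SR

open Pool.Agent.H38.ER (ERH)
open Pool.Agent.H38.NP

def lift (p : ℕ × ℕ × LP) : ℕ × ℕ × LP := (2 * p.1, p.2.1 + 1, pairsOf (2 * p.1) (p.2.1 + 1)
  fun i j => if j = p.2.1 then decide (i % 2 = 0) else ent p.2.2 (i / 2) j)

theorem pt_lift : PT lift := by
  unfold lift
  exact PT.mk (by fun_prop) (PT.mk (by fun_prop) (pt_pairsOf (by fun_prop) (by fun_prop)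
    (by fun_prop)))

theorem elim {k} (h : Fin (k + 1) → ℝ) (h0 : h ≠ 0) :
    ∃ f g : (Fin (k + 1) → ℝ) → Fin k → ℝ, ∀ w v, w ⬝ᵥ h = 0 → w ⬝ᵥ v = f w ⬝ᵥ g v := by
  obtain ⟨c, hc⟩ := Function.ne_iff.1 h0
  refine ⟨fun w l => w (c.succAbove l), fun v l => v (c.succAbove l) - v c / h c * h (c.succAbove l),
    fun w v e => ?_⟩
  simp only [dotProduct, Fin.sum_univ_succAbove _ c, mul_sub, Finset.sum_sub_distrib,
    mul_left_comm (w _) (v c / h c), ← Finset.mul_sum] at e ⊢
  have : h c ≠ 0 := hc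
  field_simp
  linear_combination v c * e

theorem lift_weak {k p} (h : Weak (k + 1) (lift p)) : Weak k p := by
  obtain ⟨m, n, E⟩ := p
  obtain ⟨u, v, h⟩ := h
  simp only [lift] at h
  have a : ∀ i < m, 0 < u (2 * i) ⬝ᵥ v n ∧ u (2 * i + 1) ⬝ᵥ v n < 0 := fun i hi => by
    have a := h (2 * i) (by omega) n (by omega)
    have b := h (2 * i + 1) (by omega) n (by omega)
    rw [dec_pairsOf (by omega) (by omega)] at a b
    simpa [sg, Nat.add_mod] using And.intro a b
  rcases Nat.eq_zero_or_pos m with rfl | hm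
  · exact ⟨0, 0, by simp⟩
  obtain ⟨f, g, e⟩ := elim (v n) fun e => by simpa [e] using a 0 hm
  refine ⟨fun i => f ((-(u (2 * i + 1) ⬝ᵥ v n)) • u (2 * i) + (u (2 * i) ⬝ᵥ v n) • u (2 * i + 1)),
    fun j => g (v j), fun i hi j hj => ?_⟩
  simp only at hi hj ⊢
  have b := h (2 * i) (by omega) j (by omega)
  have c := h (2 * i + 1) (by omega) j (by omega)
  rw [dec_pairsOf (by omega) (by omega), if_neg hj.ne] at b c
  rw [show 2 * i / 2 = i by omega] at b
  rw [show (2 * i + 1) / 2 = i by omega] at c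
  rw [← e _ _ (by simp only [add_dotProduct, smul_dotProduct, smul_eq_mul]; ring)]
  simp only [add_dotProduct, smul_dotProduct, smul_eq_mul]
  nlinarith [mul_pos (neg_pos.2 (a i hi).2) b, mul_pos (a i hi).1 c]

theorem lift_strong {d p} (h : Strong d p) : Strong (d + 1) (lift p) := by
  obtain ⟨m, n, E⟩ := p
  obtain ⟨x, a, y, b, h⟩ := h
  obtain ⟨K, hK⟩ : ∃ K, ∀ i < m, |y i| < K := ⟨∑ i ∈ Finset.range m, |y i| + 1, fun i hi =>
    (Finset.single_le_sum (f := fun i => |y i|) (fun _ _ => abs_nonneg _)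
      (Finset.mem_range.2 hi)).trans_lt (lt_add_one _)⟩
  refine ⟨fun i => Fin.cons (if i % 2 = 0 then -1 else 1) (x (i / 2)),
    fun j => if j = n then Fin.cons K 0 else Fin.cons 0 (a j), fun i => y (i / 2),
    fun j => if j = n then 0 else b j, fun i hi j hj => ?_⟩
  simp only [lift] at hi hj ⊢
  rw [dec_pairsOf hi hj]
  have := abs_lt.1 (hK (i / 2) (by omega))
  by_cases e : j = n
  · by_cases e' : i % 2 = 0 <;> simp [e, e', sg, dotProduct, Fin.sum_univ_succ] <;> linarith
  · simpa [e, dotProduct, Fin.sum_univ_succ] using h (i / 2) (by simp only; omega) j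
      (by simp only; omega)

theorem sr_erh (d : ℕ) : ERH (fun p => Weak (d + 3) p → Strong (d + 1) p) (Strong (d + 1)) := by
  induction d with
  | zero => exact sr1_erh
  | succ d ih =>
    exact ih.reduce lift pt_lift fun _ h => ⟨fun k => lift_strong (h (lift_weak k)), lift_strong,
      fun k => h (lift_weak k.weak)⟩

end Pool.Agent.Lead.SR
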