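import Pool.Agent.H38.ER.Strict
import Pool.Agent.Lead.SR.Gen

/-!
Systems of strict homogeneous quadratic inequalities, centred at an explicit integer point.
-/

namespace Pool.Agent.Lead.SR

open Pool.Agent.H38.NP Pool.Agent.H38.ER Filter Topology

abbrev LP := List (ℕ × ℕ)

def val {R : Type} [CommSemiring R] (w : ℕ → R) (L : LP) : R := (L.map fun p => w p.1 * w p.2).sum

section
variable {R : Type} [CommSemiring R] (w : ℕ → R)
@[simp] theorem val_nil : val w [] = 0 := rfl
@[simp] theorem val_cons (p L) : val w (p :: L) = w p.1 * w p.2 + val w L := by simp [val]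
@[simp] theorem val_append (L L') : val w (L ++ L') = val w L + val w L' := by simp [val]
@[simp] theorem val_rep (n p) : val w (List.replicate n p) = n * (w p.1 * w p.2) := by simp [val]
theorem val_cast (w : ℕ → ℕ) (L) : ((val w L : ℕ) : R) = val (fun j => (w j : R)) L := by
  induction L with
  | nil => simp
  | cons p L ih => simp [ih]
end

def HQ (C : List (LP × LP)) : Prop := ∃ y : ℕ → ℝ, ∀ c ∈ C, val y c.2 < val y c.1

def cut (n : ℕ) (L : LP) : LP := L.filter fun p => decide (p.1 < n) && decide (p.2 < n)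

theorem val_cut {n} (x : Fin n → ℝ) (y : ℕ → ℝ) (h : ∀ a < n, y a = xt x a) (L : LP) :
    val y (cut n L) = val (xt x) L := by
  induction L with
  | nil => rfl
  | cons p L ih =>
    unfold cut at *
    rw [List.filter_cons]
    split_ifs with e
    · simp only [Bool.and_eq_true, decide_eq_true_eq] at e
      rw [val_cons, val_cons, ih, h _ e.1, h _ e.2]
    · simp only [Bool.and_eq_true, decide_eq_true_eq, not_and_or, not_lt] at e
      rw [val_cons, ih]
      rcases e with e | e <;> simp [xt_ge x e]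

def qa (n : ℕ) (q : Q6) : LP := cut n [(q.1, q.2.1), (q.2.2.1, q.2.2.2.1)]
def qb (n : ℕ) (q : Q6) : LP := cut n [(q.2.2.2.2.1, q.2.2.2.2.2)]

def hq (p : ℕ × List Q6 × ℕ) : List (LP × LP) :=
  [([(p.2.2, p.2.2)], [(p.1, p.1 + 1)]), ([(0, 0)], [(p.1, p.1 + 2)]), ([(p.1, p.1 + 1)], []),
    ([(p.1, p.1 + 2)], []),
    ([(p.1 + 1, p.1 + 2)], (List.range p.2.1.length).map fun i => (p.1 + (i + 3), p.1 + (i + 3)))] ++
  (List.range p.2.1.length).flatMap fun i =>
    [((p.1, p.1 + (i + 3)) :: qb p.1 (p.2.1.getD i (0, 0, 0, 0, 0, 0)),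
        qa p.1 (p.2.1.getD i (0, 0, 0, 0, 0, 0))),
      ((p.1, p.1 + (i + 3)) :: qa p.1 (p.2.1.getD i (0, 0, 0, 0, 0, 0)),
        qb p.1 (p.2.1.getD i (0, 0, 0, 0, 0, 0)))]

theorem sos_range {n} (l : List Q6) (x : Fin n → ℝ) : sos l x = ∑ i ∈ Finset.range l.length,
    bil (xt x) (xt x) (l.getD i (0, 0, 0, 0, 0, 0)) ^ 2 := by
  induction l with
  | nil => simp [sos]
  | cons a l ih =>
    rw [List.length_cons, Finset.sum_range_succ']
    simp only [sos, List.map_cons, List.sum_cons, List.getD_cons_succ, List.getD_cons_zero] at ih ⊢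
    rw [ih, add_comm]

theorem hq_iff {n l k} (hk : k < n) (x : Fin n → ℝ) (y : ℕ → ℝ) (h : ∀ a < n, y a = xt x a) :
    (∀ c ∈ hq (n, l, k), val y c.2 < val y c.1) ↔ y n * y (n + 1) < xt x k ^ 2 ∧
      y n * y (n + 2) < xt x 0 ^ 2 ∧ 0 < y n * y (n + 1) ∧ 0 < y n * y (n + 2) ∧
      ∑ i ∈ Finset.range l.length, y (n + (i + 3)) ^ 2 < y (n + 1) * y (n + 2) ∧ ∀ i < l.length,
        |bil (xt x) (xt x) (l.getD i (0, 0, 0, 0, 0, 0))| < y n * y (n + (i + 3)) := by
  have e : val y ((List.range l.length).map fun i => (n + (i + 3), n + (i + 3))) =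
      ∑ i ∈ Finset.range l.length, y (n + (i + 3)) ^ 2 := by
    simp only [val, List.map_map, Finset.sum_range, sq]
    rw [← List.sum_ofFn, List.ofFn_eq_map, ← List.map_coe_finRange_eq_range, List.map_map]
    rfl
  simp only [hq, List.forall_mem_append, List.forall_mem_cons, List.forall_mem_flatMap,
    List.mem_range, e, val_cons, val_nil, add_zero, h k hk, h 0 (by omega), qa, qb, val_cut x y h,
    List.not_mem_nil, IsEmpty.forall_iff, implies_true, and_true, and_assoc, sq, abs_lt, bil]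
  refine and_congr_right fun _ => and_congr_right fun _ => and_congr_right fun _ =>
    and_congr_right fun _ => and_congr_right fun _ => forall₂_congr fun i _ => ?_
  constructor <;> rintro ⟨a, b⟩ <;> constructor <;> linarith

theorem hq_erh : ERH (fun _ => True) HQ := by
  refine strict_erh.reduce hq (by unfold hq qa qb cut; fun_prop) ?_
  rintro ⟨n, l, k⟩ ⟨hk, -⟩
  simp only at hk
  refine ⟨trivial, fun ⟨x, hx⟩ => ?_, fun ⟨y, hy⟩ => ⟨fun i => y i, ?_⟩⟩
  · simp only at x hx
    have h0 := (sos_nonneg l x).trans_lt hx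
    have h1 : 0 < xt x k ^ 2 := by
      by_contra h; rw [mul_pow] at h0; nlinarith [sq_nonneg (xt x k), sq_nonneg (xt x 0)]
    have h2 : 0 < xt x 0 ^ 2 := by
      by_contra h; rw [mul_pow] at h0; nlinarith [sq_nonneg (xt x k), sq_nonneg (xt x 0)]
    obtain ⟨t, ⟨⟨t1, t2⟩, t3⟩, t4⟩ := ((((ev_pos (f := fun t => xt x k ^ 2 - t) (by fun_prop)
      (by simpa using h1)).and (ev_pos (f := fun t => xt x 0 ^ 2 - t) (by fun_prop)
      (by simpa using h2))).and (ev_pos (f := fun t => (xt x k ^ 2 - t) * (xt x 0 ^ 2 - t) -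
        ∑ i ∈ Finset.range l.length, (|bil (xt x) (xt x) (l.getD i (0, 0, 0, 0, 0, 0))| + t) ^ 2)
      (by fun_prop) (by
        simp only [sub_zero, add_zero, sq_abs, ← sos_range, ← mul_pow]; linarith))).and
      self_mem_nhdsWithin).exists
    have t4 : 0 < t := t4
    let g : ℕ → ℝ := fun i => if i = 0 then 1 else if i = 1 then xt x k ^ 2 - t else
      if i = 2 then xt x 0 ^ 2 - t else |bil (xt x) (xt x) (l.getD (i - 3) (0, 0, 0, 0, 0, 0))| + t
    let y : ℕ → ℝ := fun a => if a < n then xt x a else g (a - n)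
    have e : ∀ i, y (n + i) = g i := fun i => by simp [y]
    have e0 : y n = 1 := e 0
    refine ⟨y, (hq_iff hk x y fun a h => if_pos h).2 ?_⟩
    have e1 : y (n + 1) = xt x k ^ 2 - t := e 1
    have e2 : y (n + 2) = xt x 0 ^ 2 - t := e 2
    have e3 : ∀ i, y (n + (i + 3)) = |bil (xt x) (xt x) (l.getD i (0, 0, 0, 0, 0, 0))| + t :=
      fun i => e (i + 3)
    simp only [e0, e1, e2, e3, one_mul]
    exact ⟨by linarith, by linarith, t1, t2, by linarith, fun _ _ => by linarith⟩
  · obtain ⟨a, b, c, d, e, f⟩ := (hq_iff hk (fun i => y i) y fun a h => (xt_res y h).symm).1 hy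
    simp only
    rw [sos_range, mul_pow]
    have t : 0 < y n ^ 2 := by
      by_contra h
      have : y n = 0 := by nlinarith [sq_nonneg (y n)]
      simp [this] at c
    calc _ ≤ ∑ i ∈ Finset.range l.length, y n ^ 2 * y (n + (i + 3)) ^ 2 := by
          refine Finset.sum_le_sum fun i hi => ?_
          have := f i (Finset.mem_range.1 hi)
          rw [← mul_pow, ← sq_abs]
          exact pow_le_pow_left₀ (abs_nonneg _) this.le 2
      _ < y n ^ 2 * (y (n + 1) * y (n + 2)) := by
          rw [← Finset.mul_sum]; exact mul_lt_mul_of_pos_left e t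
      _ = y n * y (n + 1) * (y n * y (n + 2)) := by ring
      _ < _ := mul_lt_mul'' a b c.le d.le

def len (j : ℕ) : ℕ := if j = 0 then 1 else 2 * j

def pos (L : LP) : LP :=
  L.flatMap fun p => (p.1 + 2, p.2 + 2) :: List.replicate ((p.1 + 2) * (p.2 + 2)) (1, 1)
def neg (L : LP) : LP :=
  L.flatMap fun p => List.replicate (p.2 + 2) (p.1 + 2, 1) ++ List.replicate (p.1 + 2) (1, p.2 + 2)

theorem val_shift {R : Type} [CommRing R] (w : ℕ → R) (L : LP) :
    val w (pos L) = val w (neg L) + val (fun a => w (a + 2) - (a + 2 : ℕ) * w 1) L := by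
  induction L with
  | nil => simp [pos, neg]
  | cons p L ih =>
    simp only [pos, neg, List.flatMap_cons, val_append, val_cons, val_rep] at ih ⊢
    rw [ih]; push_cast; ring

theorem val_smul (t : ℝ) (y : ℕ → ℝ) (L : LP) : val (fun a => t * y a) L = t ^ 2 * val y L := by
  induction L with
  | nil => simp
  | cons p L ih => simp only [val_cons, ih]; ring

def shift (C : List (LP × LP)) : List (LP × LP) :=
  C.map fun c => ((1, 1) :: (pos c.1 ++ neg c.2), (1, 1) :: (pos c.2 ++ neg c.1))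

def Good (C : List (LP × LP)) : Prop :=
  (∀ c ∈ C, c.1 ≠ [] ∧ c.2 ≠ [] ∧ (∀ p ∈ c.1, 1 ≤ p.1 ∧ 1 ≤ p.2) ∧ (∀ p ∈ c.2, 1 ≤ p.1 ∧ 1 ≤ p.2) ∧
    val len c.1 = val len c.2) ∧
  (HQ C → ∃ x : ℕ → ℝ, ∀ t > 0, ∀ c ∈ C,
    val (fun j => len j + t * x j) c.2 < val (fun j => len j + t * x j) c.1)

theorem pq_erh : ERH Good HQ := by
  refine hq_erh.reduce shift (by unfold shift pos neg; fun_prop) fun C _ => ?_
  have k : ∀ w : ℕ → ℝ, (∀ c ∈ shift C, val w c.2 < val w c.1) ↔
      ∀ c ∈ C, val (fun a => w (a + 2) - (a + 2 : ℕ) * w 1) c.2 <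
        val (fun a => w (a + 2) - (a + 2 : ℕ) * w 1) c.1 := fun w => by
    simp only [shift, List.forall_mem_map, val_cons, val_append, val_shift]
    exact forall₂_congr fun c _ => ⟨fun h => by linarith, fun h => by linarith⟩
  have A : HQ C → ∃ x : ℕ → ℝ, ∀ t > 0, ∀ c ∈ shift C,
      val (fun j => len j + t * x j) c.2 < val (fun j => len j + t * x j) c.1 := by
    rintro ⟨y, hy⟩
    refine ⟨fun j => if j = 1 then 0 else y (j - 2), fun t ht => (k _).2 fun c hc => ?_⟩
    have : (fun a : ℕ => ((len (a + 2) : ℝ) + t * if a + 2 = 1 then 0 else y (a + 2 - 2)) -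
        (a + 2 : ℕ) * ((len 1 : ℝ) + t * if 1 = 1 then 0 else y (1 - 2))) = fun a => t * y a := by
      funext a; simp [len]; ring
    rw [this, val_smul, val_smul]
    exact mul_lt_mul_of_pos_left (hy c hc) (by positivity)
  have B : HQ (shift C) → HQ C := fun ⟨w, hw⟩ => ⟨_, (k w).1 hw⟩
  refine ⟨⟨?_, fun h => A (B h)⟩, fun h => ?_, B⟩
  · have m : ∀ L L' : LP, ∀ p ∈ (1, 1) :: (pos L ++ neg L'), 1 ≤ p.1 ∧ 1 ≤ p.2 := fun L L' p hp => by
      simp only [pos, neg, List.mem_cons, List.mem_append, List.mem_flatMap, List.mem_replicate] at hp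
      rcases hp with rfl | ⟨q, -, rfl | ⟨-, rfl⟩⟩ | ⟨q, -, ⟨-, rfl⟩ | ⟨-, rfl⟩⟩ <;> simp
    simp only [shift, List.forall_mem_map]
    refine fun c _ => ⟨by simp, by simp, m _ _, m _ _, ?_⟩
    have z : ∀ L : LP, val (fun a : ℕ => (len (a + 2) : ℤ) - (a + 2 : ℕ) * (len 1 : ℤ)) L = 0 := by
      intro L
      induction L with
      | nil => rfl
      | cons p L ih => rw [val_cons, ih]; simp [len]; left; ring
    apply Nat.cast_injective (R := ℤ)
    rw [val_cast, val_cast]
    simp only [val_cons, val_append, val_shift, z]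
    ring
  · obtain ⟨x, hx⟩ := A h
    exact ⟨_, hx 1 one_pos⟩

end Pool.Agent.Lead.SR
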